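import Mathlib

/-!
# Reduced crossed products by locally compact groups and `K₁`, in elementary terms

`G` is a locally compact group with a left Haar measure, `Y` a topological space with an action of
`G`. The stabilised reduced crossed product `(C₀(Y) ⋊_r G) ⊗ 𝒦` is described by its faithful
representation on the family of Hilbert spaces `L²(G, ℓ²(ℕ))`, one for each point of `Y`.
-/

open scoped ENNReal CompactlySupported
open MeasureTheory

noncomputable section

namespace Pool.Agent.Lib.MP_aa9b81_an.LC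

/-- The Hilbert space `ℓ²(ℕ)`. -/
def H2 : Type := lp (fun _ : ℕ => ℂ) 2

instance : NormedAddCommGroup H2 := lp.normedAddCommGroup (E := fun _ : ℕ => ℂ) (p := 2)

instance : NormedSpace ℂ H2 := lp.instNormedSpace (E := fun _ : ℕ => ℂ) (p := 2)

/-- The `k`-th coordinate of an element of `ℓ²(ℕ)`. -/
def H2.co (v : H2) (k : ℕ) : ℂ :=
  (Subtype.val (p := fun f : ∀ _ : ℕ, ℂ => Memℓp f 2) v : ∀ _ : ℕ, ℂ) k

section

variable (G : Type) {Y Z : Type} [Group G] [TopologicalSpace G] [IsTopologicalGroup G]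
  [LocallyCompactSpace G] [MeasurableSpace G] [BorelSpace G]

/-- The Hilbert space `L²(G, ℓ²(ℕ))`, with respect to a left Haar measure. -/
def Hil : Type := Lp H2 2 (Measure.haar : Measure G)

instance : NormedAddCommGroup (Hil G) :=
  Lp.instNormedAddCommGroup (E := H2) (p := 2) (μ := (Measure.haar : Measure G))

instance : NormedSpace ℂ (Hil G) :=
  Lp.instNormedSpace (E := H2) (p := 2) (μ := (Measure.haar : Measure G))

variable {G} in
/-- The class of functions from `G` to `ℓ²(ℕ)` given by an element of `L²(G, ℓ²(ℕ))`. -/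
def Hil.cls (ξ : Hil G) : G →ₘ[(Measure.haar : Measure G)] H2 :=
  Subtype.val (p := fun f => f ∈ Lp H2 2 (Measure.haar : Measure G)) ξ

variable {G} in
/-- The coordinates `ξ(s)_k` of an element of `L²(G, ℓ²(ℕ))` (well defined for almost every `s`). -/
def Hil.co (ξ : Hil G) (s : G) (k : ℕ) : ℂ := (ξ.cls s).co k

/-- The bounded operators on `L²(G, ℓ²(ℕ))`. -/
abbrev Op : Type := Hil G →L[ℂ] Hil G

variable [TopologicalSpace Y] [MulAction G Y] [TopologicalSpace Z] [MulAction G Z]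

/-- The family `a = (a_y)` of operators on `L²(G, ℓ²(ℕ))` is a finite sum of the families
`φ ⊗ e_{ij}` (`φ ∈ C_c(Y × G)`):
`(a_y ξ)(s)_k = ∑_m [k = i_m] ∫ φ_m(s⁻¹ y, s⁻¹ t) ξ(t)_{j_m} dt` for almost every `s`. -/
def FinSum (a : Y → Op G) : Prop :=
  ∃ (n : ℕ) (φ : Fin n → C_c(Y × G, ℂ)) (i j : Fin n → ℕ),
    ∀ (y : Y) (ξ : Hil G), ∀ᵐ s ∂(Measure.haar : Measure G), ∀ k : ℕ,
      (a y ξ).co s k = ∑ m, if k = i m then
        ∫ t, φ m (s⁻¹ • y, s⁻¹ * t) * ξ.co t (j m) ∂(Measure.haar : Measure G) else 0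

omit [TopologicalSpace Y] [MulAction G Y] in
/-- `‖a_y - b_y‖ ≤ ε` for all `y`. -/
def Near (a b : Y → Op G) (ε : ℝ) : Prop := ∀ y : Y, ‖a y - b y‖ ≤ ε

/-- The stabilised reduced crossed product `A = (C₀(Y) ⋊_r G) ⊗ 𝒦`: the uniform limits of finite
sums as in `FinSum`. -/
def InA (a : Y → Op G) : Prop := ∀ ε : ℝ, 0 < ε → ∃ b : Y → Op G, FinSum G b ∧ Near G a b ε

/-- `u` is an invertible element of `1 + A`, with inverse in `1 + A`. -/
def Unit1 (u : Y → Op G) : Prop :=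
  ∃ v : Y → Op G, (∀ y, u y * v y = 1 ∧ v y * u y = 1) ∧ InA G (fun y => u y - 1) ∧
    InA G (fun y => v y - 1)

/-- `u` and `u'` are joined by a norm continuous path in the group of units of `Unit1`. -/
def Homot (u u' : Y → Op G) : Prop :=
  ∃ w : ℝ → Y → Op G, w 0 = u ∧ w 1 = u' ∧ (∀ t, Unit1 G (w t)) ∧
    ∀ t ε : ℝ, 0 < ε → ∃ δ : ℝ, 0 < δ ∧ ∀ t' : ℝ, |t' - t| < δ → Near G (w t') (w t) ε

variable (Y) in
/-- `K₁(C₀(Y) ⋊_r G) = 0`: every unit is homotopic to `1`. -/
def K1Zero : Prop := ∀ u : Y → Op G, Unit1 G u → Homot G u (fun _ => 1)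

/-- The map `p : Z → Y` induces a bijection `K₁(C₀(Y) ⋊_r G) → K₁(C₀(Z) ⋊_r G)` of the groups of
homotopy classes of units. -/
def K1Bij (p : Z → Y) : Prop :=
  (∀ u : Y → Op G, Unit1 G u → Unit1 G (fun z => u (p z))) ∧
    (∀ u u' : Y → Op G, Unit1 G u → Unit1 G u' →
      Homot G (fun z => u (p z)) (fun z => u' (p z)) → Homot G u u') ∧
    ∀ v : Z → Op G, Unit1 G v → ∃ u : Y → Op G, Unit1 G u ∧ Homot G (fun z => u (p z)) v

end

end Pool.Agent.Lib.MP_aa9b81_an.LC
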