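import Mathlib

/-!
# Spaces of separated subsets of a locally compact group, convex spaces and cones
-/

open Set

noncomputable section

namespace Pool.Agent.Lib.MP_aa9b81_an.LC

/-! ### Separated subsets -/

section ClV

/-- The space `Cl_V(G)` of the `V`-separated subsets of `G`: the sets `D ⊆ G` with `a⁻¹ b ∉ V` for
all points `a ≠ b` of `D`. -/
def ClV {G : Type} [Group G] (V : Set G) : Type :=
  {D : Set G // ∀ a ∈ D, ∀ b ∈ D, a⁻¹ * b ∈ V → a = b}

variable {G : Type} [Group G] {V : Set G}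

/-- `G` acts on `Cl_V(G)` by left translation. -/
instance : MulAction G (ClV V) where
  smul g D := ⟨{x | g⁻¹ * x ∈ D.1}, fun a ha b hb h => by
    have h1 := D.2 (g⁻¹ * a) ha (g⁻¹ * b) hb (by
      have h2 : (g⁻¹ * a)⁻¹ * (g⁻¹ * b) = a⁻¹ * b := by group
      rw [h2]
      exact h)
    exact mul_left_cancel h1⟩
  one_smul D := Subtype.ext (Set.ext fun x => by
    change 1⁻¹ * x ∈ D.1 ↔ x ∈ D.1
    rw [inv_one, one_mul])
  mul_smul g h D := Subtype.ext (Set.ext fun x => by
    change (g * h)⁻¹ * x ∈ D.1 ↔ h⁻¹ * (g⁻¹ * x) ∈ D.1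
    rw [mul_inv_rev, mul_assoc])

/-- The Fell topology, generated by the sets `{D | K ∩ D = ∅}`, `K` compact, and
`{D | D ∩ U ≠ ∅}`, `U` open. -/
instance [TopologicalSpace G] : TopologicalSpace (ClV V) :=
  TopologicalSpace.generateFrom
    ({A | ∃ K : Set G, IsCompact K ∧ A = {D : ClV V | Disjoint K D.1}} ∪
      {A | ∃ U : Set G, IsOpen U ∧ A = {D : ClV V | (D.1 ∩ U).Nonempty}})

variable [TopologicalSpace G] {Y : Type} [TopologicalSpace Y]

/-- The space of the pairs `(y, A)` with `A ⊆ D y`, for a family `D y`, `y ∈ Y`, of separated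
subsets, as a subspace of `Y × Cl_V(G)`. -/
def Pairs (D : Y → ClV V) : Type := {p : Y × ClV V // p.2.1 ⊆ (D p.1).1}

instance (D : Y → ClV V) : TopologicalSpace (Pairs D) :=
  inferInstanceAs (TopologicalSpace {p : Y × ClV V // p.2.1 ⊆ (D p.1).1})

/-- `y`, for the pair `(y, A)`. -/
def Pairs.pt {D : Y → ClV V} (p : Pairs D) : Y := p.1.1

/-- `A`, for the pair `(y, A)`. -/
def Pairs.set {D : Y → ClV V} (p : Pairs D) : ClV V := p.1.2

/-- A thinning of the `G`-space `Y` onto `Y₀`: an equivariant continuous family `D y`, `y ∈ Y`, of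
`V`-separated subsets of `G`, and an equivariant proper map `H`, which gives for every `y` and every
subset `A` of `D y` a point `H (y, A)` of `Y`, such that `H (y, D y) = y` for all `y`,
`H (y, ∅) ∈ Y₀` for all `y`, and `H (y, ∅) = y` for `y ∈ Y₀`. -/
structure Thinning [MulAction G Y] (Y₀ : SubMulAction G Y) (D : Y → ClV V) (H : Pairs D → Y) :
    Prop where
  continuous : Continuous D
  smul_D : ∀ (g : G) (y : Y), D (g • y) = g • D y
  isProperMap : IsProperMap H
  smul_H : ∀ (g : G) (p p' : Pairs D), p'.pt = g • p.pt → p'.set = g • p.set → H p' = g • H p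
  full : ∀ p : Pairs D, p.set = D p.pt → H p = p.pt
  empty_mem : ∀ p : Pairs D, p.set.1 = ∅ → H p ∈ Y₀
  empty_eq : ∀ p : Pairs D, p.set.1 = ∅ → p.pt ∈ Y₀ → H p = p.pt

end ClV

/-! ### Convex spaces and open cones -/

/-- A nonempty compact convex subset of a topological vector space with a linear action of `G`,
invariant under `G`. -/
structure ConvexSpace (G E : Type) [Group G] [AddCommGroup E] [Module ℝ E] [TopologicalSpace E]
    [DistribMulAction G E] where
  /-- the set -/
  carrier : Set E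
  nonempty : carrier.Nonempty
  compact : IsCompact carrier
  convex : Convex ℝ carrier
  smul_mem : ∀ g : G, ∀ q ∈ carrier, g • q ∈ carrier

section Cone

variable {G E : Type} [Group G] [AddCommGroup E] [Module ℝ E] [TopologicalSpace E]
  [DistribMulAction G E]

/-- The open cone on a convex space `Q`: the points `(s q, s)` with `q ∈ Q`, `0 ≤ s < 1`. -/
def Cone (Q : ConvexSpace G E) : Type :=
  {w : E × ℝ // 0 ≤ w.2 ∧ w.2 < 1 ∧ ∃ q ∈ Q.carrier, w.1 = w.2 • q}

variable (Q : ConvexSpace G E)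

instance : TopologicalSpace (Cone Q) :=
  inferInstanceAs (TopologicalSpace {w : E × ℝ // 0 ≤ w.2 ∧ w.2 < 1 ∧ ∃ q ∈ Q.carrier, w.1 = w.2 • q})

/-- The action `g (s q, s) = (s g q, s)`. -/
instance [SMulCommClass G ℝ E] : MulAction G (Cone Q) where
  smul g w := ⟨(g • w.1.1, w.1.2), w.2.1, w.2.2.1, by
    obtain ⟨q, hq, h⟩ := w.2.2.2
    exact ⟨g • q, Q.smul_mem g q hq, by
      change g • w.1.1 = w.1.2 • g • q
      rw [h, smul_comm]⟩⟩
  one_smul w := Subtype.ext (Prod.ext (one_smul G w.1.1) rfl)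
  mul_smul g h w := Subtype.ext (Prod.ext (mul_smul g h w.1.1) rfl)

end Cone

/-- The open cube `(0,1)^j`, with the trivial action of every group. -/
def Cube (j : ℕ) : Type := Fin j → Ioo (0 : ℝ) 1

instance (j : ℕ) : TopologicalSpace (Cube j) :=
  inferInstanceAs (TopologicalSpace (Fin j → Ioo (0 : ℝ) 1))

instance (G : Type) [Group G] (j : ℕ) : MulAction G (Cube j) where
  smul _ v := v
  one_smul _ := rfl
  mul_smul _ _ _ := rfl

section Wsp

variable {G E : Type} [Group G] [AddCommGroup E] [Module ℝ E] [TopologicalSpace E]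
  [DistribMulAction G E] (Q : ConvexSpace G E)

/-- The space `Y × W × (0,1)^j`, where `W` is the open cone on `Q`. -/
def Wsp (Y : Type) (j : ℕ) : Type := Y × Cone Q × Cube j

instance (Y : Type) [TopologicalSpace Y] (j : ℕ) : TopologicalSpace (Wsp Q Y j) :=
  inferInstanceAs (TopologicalSpace (Y × Cone Q × Cube j))

instance [SMulCommClass G ℝ E] (Y : Type) [MulAction G Y] (j : ℕ) : MulAction G (Wsp Q Y j) :=
  inferInstanceAs (MulAction G (Y × Cone Q × Cube j))

/-- The map `f × id` from `Y × W × (0,1)^j` to `Y' × W × (0,1)^j`. -/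
def Wsp.map {Y Y' : Type} (f : Y → Y') (j : ℕ) (x : Wsp Q Y j) : Wsp Q Y' j := (f x.1, x.2)

end Wsp

end Pool.Agent.Lib.MP_aa9b81_an.LC
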