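import Pool.Agent.Lib.MP_aa9b81_an.Mg.G067
import Pool.Agent.Lib.MP_aa9b81_an.Mg.G070
import Pool.Agent.Lib.MP_aa9b81_an.Mg.G061
import Pool.Agent.Lib.MP_aa9b81_an.Mg.G072
import Pool.Agent.Lib.MP_aa9b81_an.Mg.G071
import Pool.Agent.Lib.MP_aa9b81_an.Cb.LcSp
import Pool.Agent.Lib.MP_aa9b81_an.Mg.G068

section
/-!
# Continuous Bernoulli, part Kh: the homomorphism of stage 2
-/

open scoped ENNReal Topology CompactlySupported
open Function Filter MeasureTheory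

noncomputable section

set_option linter.unusedSectionVars false

namespace Pool.Agent.Lib.MP_aa9b81_an.Cb

open Cut Hs

variable {G O Y E Z : Type} [Group G] [TopologicalSpace G] [IsTopologicalGroup G]
  [LocallyCompactSpace G] [SecondCountableTopology G] [T2Space G] [MeasurableSpace G]
  [BorelSpace G] [DecidableEq G] [LinearOrder O]
  [TopologicalSpace Y] [MulAction G Y] [AddCommGroup E] [Module ℝ E]
  [TopologicalSpace E] [T2Space E] [ContinuousAdd E] [ContinuousSMul ℝ E] [DistribMulAction G E]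
  [SMulCommClass G ℝ E] [ContinuousConstSMul G E] [TopologicalSpace Z] [MulAction G Z]
  [T2Space Y] [LocallyCompactSpace Y] [ContinuousSMul G Y] [T2Space Z] [LocallyCompactSpace Z]
  [ContinuousSMul G Z]
  {V : Set G} (Δ : Df G Y V) (Q : ConvexSpace G E)

/-- An increasing sequence of finite subsets of `D` which exhausts it. PROOF: `G` is `σ`-compact (`CompactExhaustion`), the intersections with the compact sets are finite (`Sep.finite_inter`). -/
theorem exists_exh (hV : V ∈ 𝓝 (1 : G)) (D : ClV V) : ∃ L : ℕ → Finset G, Monotone L ∧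
    (∀ n, (L n : Set G) ⊆ D.s) ∧ ∀ x ∈ D.s, ∃ n, x ∈ L n := by
  obtain ⟨K⟩ : Nonempty (CompactExhaustion G) := ⟨default⟩
  have hfin : ∀ n, (D.s ∩ K n).Finite := fun n => Sep.finite_inter hV D.sep (K.isCompact n)
  refine ⟨fun n => (hfin n).toFinset, fun m n hmn x hx => ?_, fun n x hx => ?_, fun x hx => ?_⟩
  · rw [Set.Finite.mem_toFinset] at hx ⊢
    exact ⟨hx.1, K.subset hmn hx.2⟩
  · exact ((hfin n).mem_toFinset.1 (Finset.mem_coe.1 hx)).1
  · exact ⟨K.find x, (hfin _).mem_toFinset.2 ⟨hx, K.mem_find x⟩⟩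

/-- The rotations. -/
def uF (B : Type) (L : B → ℕ → Finset G) (θ : ℝ) (n : ℕ) : FamG G (ℕ × Bs G) B :=
  fam fun b => cm (UK (L b n) θ : BL (Bs G))

/-- PROOF: `fam_apply`, `norm_cm_le`, `norm_UK_le`. -/
theorem uF_apply {B : Type} (L : B → ℕ → Finset G) (θ : ℝ) (n : ℕ) (b : B) :
    (uF B L θ n : FamG G (ℕ × Bs G) B).fn b = cm (UK (L b n) θ : BL (Bs G)) := by
  exact fam_apply (C := 1) (fun b => (norm_cm_le _).trans (norm_UK_le _ _)) b

theorem norm_uF_le {B : Type} (L : B → ℕ → Finset G) (θ : ℝ) (n : ℕ) :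
    ‖(uF B L θ n : FamG G (ℕ × Bs G) B)‖ ≤ 1 := by
  exact norm_fam_le zero_le_one fun b => (norm_cm_le _).trans (norm_UK_le _ _)

/-- PROOF: `cm_mul`, `UK_mul_UK_neg`. -/
theorem uF_mul_uF_neg {B : Type} (L : B → ℕ → Finset G) (θ : ℝ) (n : ℕ) :
    (uF B L θ n : FamG G (ℕ × Bs G) B) * uF B L (-θ) n = 1 := by
  refine FamG.ext fun b => ?_
  rw [FamG.mul_apply, FamG.one_apply, uF_apply, uF_apply, ← cm_mul, UK_mul_UK_neg, cm_one]

/-- The convergence on the rotated functions. PROOF: let `ε > 0`; `f` depends up to `ε / 2` on a finite set `L'` (`exists_dep`), and on `D` exactly, so up to `ε / 2` on `L' ∩ D` (`Dep.inter`), contained in `L n` for large `n`, so `Dep (L n) (ε / 2) f`: `norm_sig_sub_le`, and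
`‖sigL (L n) θ f - sigL (L n) θ (f ∘ rs (L n))‖ ≤ ε / 2` (`norm_sigL_sub_le`, `Dep.norm_sub_le`). -/
theorem tendsto_sigL {D : Set G} {L : ℕ → Finset G} (hm : Monotone L)
    (hL : ∀ x ∈ D, ∃ n, x ∈ L n) {f : (G → Bool) → ℂ} (hf : Continuous f) (hD : Dep D 0 f) (θ : ℝ) :
    Tendsto (fun n => sigL (L n) θ f) atTop (𝓝 (sig θ f)) := by
  rw [Metric.tendsto_atTop]
  intro ε hε
  obtain ⟨L', hL'⟩ := exists_dep hf (show 0 < ε / 3 by linarith)
  have h1 := hD.inter hL'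
  have h2 : ∀ x : G, ∃ n, x ∈ D → x ∈ L n := by
    intro x
    by_cases hx : x ∈ D
    · obtain ⟨n, hn⟩ := hL x hx
      exact ⟨n, fun _ => hn⟩
    · exact ⟨0, fun h => absurd h hx⟩
  choose m hm' using h2
  refine ⟨L'.sup m, fun n hn => ?_⟩
  have h3 : Dep ((L n : Finset G) : Set G) (ε / 3) f := by
    refine h1.mono (fun x hx => ?_) le_rfl
    exact hm ((Finset.le_sup (Finset.mem_coe.1 hx.1)).trans hn) (hm' x hx.2)
  have h4 := norm_sig_sub_le hf h3 θ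
  have h5 := norm_sigL_sub_rs_le h3 (Finset.Subset.refl (L n)) θ
  rw [dist_eq_norm]
  have h6 : sigL (L n) θ f - sig θ f = (sigL (L n) θ f - sigL (L n) θ fun T => f (rs (L n) T)) -
      (sig θ f - sigL (L n) θ fun T => f (rs (L n) T)) := by abel
  rw [h6]
  have h7 := norm_sub_le (sigL (L n) θ f - sigL (L n) θ fun T => f (rs (L n) T))
    (sig θ f - sigL (L n) θ fun T => f (rs (L n) T))
  linarith

variable {Δ Q}

/-- The function read in absolute coordinates. -/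
def fA (Δ : Df G Y V) (Q : ConvexSpace G E) (φ : Prs Δ × Cone Q × Z → G → ℂ)
    (b : Y × Cone Q × Z) (a a' : G) (T : G → Bool) : ℂ :=
  φ (a⁻¹ • (Δ.pt b.1 {x | T x = false}, b.2)) (a⁻¹ * a')

/-- PROOF: `absS_nr` for `r1` (`nr_r1`, `r1_smul`): the function at `β` is `fA (ind β.F)`. -/
theorem absS_n1 (e : G ↪ O) {φ : Prs Δ × Cone Q × Z → G → ℂ} (hφ : Cc _ G φ)
    (b : Y × Cone Q × Z) (a a' : G) : absS e (n1 Δ Q φ) b a a' = dF (fA Δ Q φ b a a') := by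
  obtain ⟨M, hM, hMφ⟩ := hφ.exists_bound
  unfold absS n1 dF
  rw [Wg_dia e hM.le (fun β => hMφ _ _), mul_assoc, Wg_mul_inv, mul_one]
  congr 1
  funext β
  unfold fA
  rw [setOf_ind]
  congr 2
  show Δ.pt (a⁻¹ • b.1) ((gF a⁻¹ β.F : Finset G) : Set G)ᶜ = a⁻¹ • Δ.pt b.1 _
  rw [Δ.pt_smul, compl_gF]

/-- PROOF: `Wg_sig`, `Wg_mul_inv`: the translated function is `T ↦ φ (Δ.pt (a⁻¹ • b.1) {x | T (a • x) = false}, a⁻¹ • b.2) (a⁻¹ a')` and `Δ.pt (a⁻¹ y) T' = a⁻¹ • Δ.pt y {x | a⁻¹ x ∈ T'}` (`Df.pt_smul`). -/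
theorem absS_n2 (hV : IsOpen V) (h1 : (1 : G) ∈ V) (e : G ↪ O) (θ : ℝ)
    {φ : Prs Δ × Cone Q × Z → G → ℂ} (hφ : Cc _ G φ) (b : Y × Cone Q × Z) (a a' : G) :
    absS e (n2 Δ Q θ φ) b a a' = sig θ (fA Δ Q φ b a a') := by
  obtain ⟨M, hM, hMφ⟩ := hφ.exists_bound
  have hcf := continuous_f2 (Δ := Δ) (hV.mem_nhds h1) hφ
  have h2 : n2 Δ Q θ φ (a⁻¹ • b) (a⁻¹ * a') = sig θ (f2 Δ φ (a⁻¹ • b) (a⁻¹ * a')) := rfl
  unfold absS
  rw [h2, Wg_sig e a (hcf _ _), mul_assoc, Wg_mul_inv, mul_one]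
  congr 1
  funext T
  unfold f2 fA
  congr 2
  show Δ.pt (a⁻¹ • b.1) {x | T (a * x) = false} = a⁻¹ • Δ.pt b.1 _
  rw [Δ.pt_smul]
  congr 2
  ext x
  rw [Set.mem_ofPred_eq, Set.mem_ofPred_eq, Set.mem_ofPred_eq, mul_inv_cancel_left]

/-- PROOF: `Df.continuous_pt`, `Prs.continuousSMul`-type continuity of `x ↦ a⁻¹ • x`. -/
theorem continuous_fA (hV : IsOpen V) (h1 : (1 : G) ∈ V)
    (hQ : Continuous fun p : G × Q.Pt => p.1 • p.2)
    {φ : Prs Δ × Cone Q × Z → G → ℂ} (hφ : Cc _ G φ) (b : Y × Cone Q × Z) (a a' : G) :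
    Continuous (fA Δ Q φ b a a') := by
  have hV1 : V ∈ 𝓝 (1 : G) := hV.mem_nhds h1
  have hcone : ContinuousSMul G (Cone Q) := cone_continuousSMul Q hQ
  have hprs : ContinuousSMul G (Prs Δ) := Prs.continuousSMul Δ hV1
  have h2 : Continuous fun T : G → Bool => Δ.pt b.1 {x | T x = false} :=
    Δ.continuous_pt hV1 b.1 false
  have h3 : Continuous fun T : G → Bool =>
      ((a⁻¹ • ((Δ.pt b.1 {x | T x = false}, b.2) : Prs Δ × Cone Q × Z)), a⁻¹ * a') :=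
    ((h2.prodMk continuous_const).const_smul a⁻¹).prodMk continuous_const
  exact hφ.cont.comp h3

/-- PROOF: `Df.pt_congr`. -/
theorem dep_fA (φ : Prs Δ × Cone Q × Z → G → ℂ) (b : Y × Cone Q × Z) (a a' : G) :
    Dep (Δ.D b.1).s 0 (fA Δ Q φ b a a') := by
  intro T T' h
  have h1 : Δ.pt b.1 {x | T x = false} = Δ.pt b.1 {x | T' x = false} := by
    refine Δ.pt_congr ?_
    ext x
    constructor
    · rintro ⟨hx, hT⟩
      exact ⟨hx, by rw [Set.mem_ofPred_eq] at hT ⊢; rw [← h x hx]; exact hT⟩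
    · rintro ⟨hx, hT⟩
      exact ⟨hx, by rw [Set.mem_ofPred_eq] at hT ⊢; rw [h x hx]; exact hT⟩
  unfold fA
  rw [h1, sub_self, norm_zero]

/-- PROOF: `Cc` functions are bounded. -/
theorem exists_bdd_fA {φ : Prs Δ × Cone Q × Z → G → ℂ} (hφ : Cc _ G φ) :
    ∃ M : ℝ, 0 ≤ M ∧ ∀ b a a' T, ‖fA Δ Q φ b a a' T‖ ≤ M := by
  obtain ⟨M, hM, hMφ⟩ := hφ.exists_bound
  exact ⟨M, hM.le, fun b a a' T => hMφ _ _⟩

/-- The strong limit on the generators. PROOF: at `b`: `oS_apply` for `n1` (`Sy_n1`, any weight `exists_wc`, a partition `exists_part`), `Mul_comp_opk`, `opk_comp_Mul`: the left side is `opk` of the kernel `ek i j (UK (L b n) (-θ) * dF f * UK (L b n) θ) = ek i j (sigL (L b n) θ f)`, `f = fA φ b a a'` (`absS_n1`), and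
the limit is `opk` of `ek i j (sig θ f)` (`absS_n2`); `tendsto_opk`: the kernels have the same support and bound (`norm_sigL_le`), and `sigL (L b n) θ f → sig θ f` in norm (`tendsto_sigL`; `ek i j` is contractive: `ek_sub`, `norm_ek_le`). -/
theorem SLim_gen (hV : IsOpen V) (h1 : (1 : G) ∈ V)
    (hQ : Continuous fun p : G × Q.Pt => p.1 • p.2) (e : G ↪ O) (θ : ℝ)
    {L : Y × Cone Q × Z → ℕ → Finset G} (hm : ∀ b, Monotone (L b))
    (hL : ∀ b, ∀ x ∈ (Δ.D b.1).s, ∃ n, x ∈ L b n) (φ : C_c((Prs Δ × Cone Q × Z) × G, ℂ)) (i j : ℕ) :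
    SLim (fun n => uF _ L (-θ) n * oS e (n1 Δ Q fun b g => φ (b, g)) i j * uF _ L θ n)
      (oS e (n2 Δ Q θ fun b g => φ (b, g)) i j) := by
  have hcone : ContinuousSMul G (Cone Q) := cone_continuousSMul Q hQ
  have hφ : Cc (Prs Δ × Cone Q × Z) G fun b g => φ (b, g) :=
    ⟨φ.continuous, φ.hasCompactSupport⟩
  obtain ⟨χ⟩ := exists_part (G := G) (hV.mem_nhds h1)
  obtain ⟨W⟩ := exists_wc (G := G)
  have hn1 := Sy_n1 (Δ := Δ) (Q := Q) (Z := Z) χ hV h1 hQ e W le_rfl zero_le_one hφ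
  have hn2 := Sy_n2 (Δ := Δ) (Q := Q) (Z := Z) χ hV h1 hQ e W θ hφ
  obtain ⟨C, M, hk⟩ := KOK_absS hn1
  obtain ⟨C', M', hk'⟩ := KOK_absS hn2
  intro b ξ
  have hU : ∀ n (t : ℝ), SC fun _ : G => am (UK (L b n) t : BL (Bs G)) := fun n t =>
    SC.const _
  have hUn : ∀ n (t : ℝ) (a : G), ‖(am (UK (L b n) t : BL (Bs G)))‖ ≤ 1 := fun n t _ =>
    (norm_am_le _).trans (norm_UK_le _ _)
  have hleft : ∀ n, KOK C (1 * M) fun a a' => (am (UK (L b n) (-θ) : BL (Bs G))).comp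
      (ek i j (absS e (n1 Δ Q fun b g => φ (b, g)) b a a')) := fun n =>
    KOK.left (hk b i j) (hU n (-θ)) zero_le_one (hUn n (-θ))
  have hboth : ∀ n, KOK C (1 * M * 1) fun a a' => ((am (UK (L b n) (-θ) : BL (Bs G))).comp
      (ek i j (absS e (n1 Δ Q fun b g => φ (b, g)) b a a'))).comp
        (am (UK (L b n) θ : BL (Bs G))) := fun n =>
    KOK.right (hleft n) (hU n θ) zero_le_one (hUn n θ)
  have hker : ∀ n a a', ((am (UK (L b n) (-θ) : BL (Bs G))).comp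
      (ek i j (absS e (n1 Δ Q fun b g => φ (b, g)) b a a'))).comp
        (am (UK (L b n) θ : BL (Bs G))) =
      ek i j (sigL (L b n) θ (fA Δ Q (fun b g => φ (b, g)) b a a')) := by
    intro n a a'
    rw [am_comp_ek, ek_comp_am, absS_n1 e hφ]
    rfl
  have hlim : ∀ a a', ek i j (absS e (n2 Δ Q θ fun b g => φ (b, g)) b a a') =
      ek i j (sig θ (fA Δ Q (fun b g => φ (b, g)) b a a')) := by
    intro a a'
    rw [absS_n2 hV h1 e θ hφ]
  have hseq : ∀ n, (uF _ L (-θ) n * oS e (n1 Δ Q fun b g => φ (b, g)) i j * uF _ L θ n).fn b =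
      opk fun a a' => ek i j (sigL (L b n) θ (fA Δ Q (fun b g => φ (b, g)) b a a')) := by
    intro n
    rw [FamG.mul_apply, FamG.mul_apply, uF_apply, uF_apply, oS_apply hn1]
    show ((cm (UK (L b n) (-θ) : BL (Bs G))).comp (opk fun a a' => ek i j
      (absS e (n1 Δ Q fun b g => φ (b, g)) b a a'))).comp (cm (UK (L b n) θ : BL (Bs G))) = _
    unfold cm
    rw [Mul_comp_opk (hk b i j) (hU n (-θ)), opk_comp_Mul (hleft n) (hU n θ)]
    congr 1
    funext a a'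
    exact hker n a a'
  have hseq2 : (oS e (n2 Δ Q θ fun b g => φ (b, g)) i j).fn b =
      opk fun a a' => ek i j (sig θ (fA Δ Q (fun b g => φ (b, g)) b a a')) := by
    rw [oS_apply hn2]
    congr 1
    funext a a'
    exact hlim a a'
  rw [hseq2]
  simp only [hseq]
  simp only [hker] at hboth
  have hk2 := hk' b i j
  simp only [hlim] at hk2
  have hM0 : 0 ≤ max (1 * M * 1) M' := le_max_of_le_right hk2.nonneg
  refine tendsto_opk (C := C ∪ C') (M := max (1 * M * 1) M') (fun n => ?_) ?_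
    (fun a a' v => ?_) ξ
  · refine (hboth n).mono ((hboth n).cpt.union hk2.cpt) hM0 (fun a a' =>
      ((hboth n).bdd a a').trans (le_max_left _ _)) fun a a' h =>
        (hboth n).supp a a' fun h' => h (Or.inl h')
  · refine hk2.mono ((hboth 0).cpt.union hk2.cpt) hM0 (fun a a' =>
      (hk2.bdd a a').trans (le_max_right _ _)) fun a a' h =>
        hk2.supp a a' fun h' => h (Or.inr h')
  · have h5 := tendsto_sigL (hm b) (hL b) (continuous_fA (Δ := Δ) (Q := Q) (Z := Z) hV h1 hQ hφ b a a')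
      (dep_fA (fun b g => φ (b, g)) b a a') θ
    have h6 : Tendsto (fun n => ‖sigL (L b n) θ (fA Δ Q (fun b g => φ (b, g)) b a a') -
        sig θ (fA Δ Q (fun b g => φ (b, g)) b a a')‖ * ‖v‖) atTop (𝓝 (0 * ‖v‖)) :=
      (tendsto_iff_norm_sub_tendsto_zero.1 h5).mul_const _
    rw [zero_mul] at h6
    refine tendsto_iff_norm_sub_tendsto_zero.2 (squeeze_zero (fun n => norm_nonneg _)
      (fun n => ?_) h6)
    rw [← ContinuousLinearMap.sub_apply, ← ek_sub]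
    exact (ContinuousLinearMap.le_opNorm _ _).trans
      (mul_le_mul_of_nonneg_right (norm_ek_le _ _ _) (norm_nonneg _))

/-- STAGE 2. PROOF: let `L b` be as in `exists_exh` for `Δ.D b.1`, `Th₁ = Thr (r1 Δ Q)` (`SH_Thr`, `r1_smul`, `nr_r1`). For `x` in the crossed product the sequence `uF (-θ) n * Th₁ x * uF θ n` has a strong limit: the set of these `x` is closed (`exists_SLim`, norms `≤ 1`), additive, contains the generators (`SLim_gen`): `cpG_induction`.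
`Th x` is this limit (`Classical.choose`; `0` for the other `x`). `add`, `mul` (`uF θ n * uF (-θ) n = 1`), `norm`: `SLim.add`, `SLim.mul`, `SLim.norm_le`, `SLim.unique`. `gen`: `SLim_gen`. The instances on `Prs Δ` and the cone: `Prs.t2Space`, `Prs.continuousSMul`, `cone_continuousSMul`. -/
theorem exists_SH2 (hV : IsOpen V) (h1 : (1 : G) ∈ V)
    (hQ : Continuous fun p : G × Q.Pt => p.1 • p.2) (e : G ↪ O) (θ : ℝ) [T2Space (Prs Δ)]
    [ContinuousSMul G (Prs Δ)] [ContinuousSMul G (Cone Q)] :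
    ∃ Th : FamG G ℕ (Prs Δ × Cone Q × Z) → FamG G (ℕ × Bs G) (Y × Cone Q × Z),
      SH e Th (n2 Δ Q θ) := by
  classical
  have hV1 : V ∈ 𝓝 (1 : G) := hV.mem_nhds h1
  choose L hm hLs hL using fun b : Y × Cone Q × Z => exists_exh hV1 (Δ.D b.1)
  have h : SH e (Thr (r1 Δ Q (Z := Z))) (nr (B := Y × Cone Q × Z) (r1 Δ Q)) :=
    SH_Thr e (r1_smul Δ Q)
  let F : FamG G ℕ (Prs Δ × Cone Q × Z) → ℕ → FamG G (ℕ × Bs G) (Y × Cone Q × Z) := fun x n =>
    uF _ L (-θ) n * Thr (r1 Δ Q) x * uF _ L θ n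
  have hF : ∀ x n, F x n = uF _ L (-θ) n * Thr (r1 Δ Q) x * uF _ L θ n := fun x n => rfl
  have hgenL : ∀ (φ : C_c((Prs Δ × Cone Q × Z) × G, ℂ)) (i j : ℕ),
      SLim (F (gen φ i j)) (oS e (n2 Δ Q θ fun b g => φ (b, g)) i j) := by
    intro φ i j
    have h2 := SLim_gen (Δ := Δ) (Q := Q) (Z := Z) hV h1 hQ e θ hm hL φ i j
    have h3 : F (gen φ i j) = fun n => uF _ L (-θ) n *
        oS e (n1 Δ Q fun b g => φ (b, g)) i j * uF _ L θ n := by
      funext n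
      rw [hF, h.gen, nr_r1]
    rw [h3]
    exact h2
  have hnm : ∀ (n : ℕ) (y : FamG G (ℕ × Bs G) (Y × Cone Q × Z)),
      ‖uF _ L (-θ) n * y * uF _ L θ n‖ ≤ ‖y‖ := by
    intro n y
    have h2 := norm_mul_le (uF _ L (-θ) n * y) (uF _ L θ n)
    have h3 := norm_mul_le (uF _ L (-θ) n) y
    have h4 : ‖(uF _ L (-θ) n : FamG G (ℕ × Bs G) (Y × Cone Q × Z))‖ ≤ 1 := norm_uF_le L (-θ) n
    have h5 : ‖(uF _ L θ n : FamG G (ℕ × Bs G) (Y × Cone Q × Z))‖ ≤ 1 := norm_uF_le L θ n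
    have h6 := norm_nonneg y
    have h7 := norm_nonneg (uF _ L (-θ) n * y)
    have h8 := norm_nonneg (uF _ L θ n : FamG G (ℕ × Bs G) (Y × Cone Q × Z))
    have h9 := norm_nonneg (uF _ L (-θ) n : FamG G (ℕ × Bs G) (Y × Cone Q × Z))
    nlinarith
  have hFn : ∀ x ∈ cpG G ℕ (Prs Δ × Cone Q × Z), ∀ n, ‖F x n‖ ≤ ‖x‖ := fun x hx n =>
    (hnm n _).trans (h.norm x hx)
  have hFadd : ∀ x ∈ cpG G ℕ (Prs Δ × Cone Q × Z), ∀ y ∈ cpG G ℕ (Prs Δ × Cone Q × Z),
      F (x + y) = fun n => F x n + F y n := by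
    intro x hx y hy
    funext n
    simp only [hF]
    rw [h.add x hx y hy, mul_add, add_mul]
  have hFmul : ∀ x ∈ cpG G ℕ (Prs Δ × Cone Q × Z), ∀ y ∈ cpG G ℕ (Prs Δ × Cone Q × Z),
      F (x * y) = fun n => F x n * F y n := by
    intro x hx y hy
    funext n
    simp only [hF]
    rw [h.mul x hx y hy]
    have h2 : (uF _ L θ n : FamG G (ℕ × Bs G) (Y × Cone Q × Z)) * uF _ L (-θ) n = 1 :=
      uF_mul_uF_neg L θ n
    calc uF _ L (-θ) n * (Thr (r1 Δ Q) x * Thr (r1 Δ Q) y) * uF _ L θ n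
        = uF _ L (-θ) n * Thr (r1 Δ Q) x * 1 * Thr (r1 Δ Q) y * uF _ L θ n := by
          rw [mul_one]
          simp only [mul_assoc]
      _ = uF _ L (-θ) n * Thr (r1 Δ Q) x * (uF _ L θ n * uF _ L (-θ) n) * Thr (r1 Δ Q) y *
            uF _ L θ n := by rw [h2]
      _ = _ := by simp only [mul_assoc]
  have hex : ∀ x ∈ cpG G ℕ (Prs Δ × Cone Q × Z), x ∈ cpG G ℕ (Prs Δ × Cone Q × Z) ∧
      ∃ y, SLim (F x) y := by
    refine cpG_induction (p := fun x => x ∈ cpG G ℕ (Prs Δ × Cone Q × Z) ∧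
      ∃ y, SLim (F x) y) ?_ ?_ ?_ ?_
    · refine isClosed_of_closure_subset fun x hx => ?_
      have hxc : x ∈ cpG G ℕ (Prs Δ × Cone Q × Z) := by
        have h2 := closure_mono (show {x | x ∈ cpG G ℕ (Prs Δ × Cone Q × Z) ∧
          ∃ y, SLim (F x) y} ⊆ (cpG G ℕ (Prs Δ × Cone Q × Z) : Set _) from fun x hx => hx.1) hx
        rwa [isClosed_cpG.closure_eq] at h2
      refine ⟨hxc, exists_SLim (hFn x hxc) fun ε hε => ?_⟩
      obtain ⟨x', hx', hd⟩ := Metric.mem_closure_iff.1 hx ε hε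
      obtain ⟨y', hy'⟩ := hx'.2
      refine ⟨F x', y', hy', fun n => ?_⟩
      have h2 : F x n - F x' n =
          uF _ L (-θ) n * (Thr (r1 Δ Q) x - Thr (r1 Δ Q) x') * uF _ L θ n := by
        simp only [hF]
        rw [mul_sub, sub_mul]
      rw [h2]
      refine (hnm n _).trans ((h.norm_sub_le x hxc x' hx'.1).trans ?_)
      rw [← dist_eq_norm]
      exact hd.le
    · refine ⟨zero_mem _, 0, fun b ξ => ?_⟩
      have h2 : ∀ n, F 0 n = 0 := by
        intro n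
        rw [hF, h.zero, mul_zero, zero_mul]
      simp only [h2]
      exact tendsto_const_nhds
    · rintro x y ⟨hx, x', hx'⟩ ⟨hy, y', hy'⟩
      refine ⟨add_mem hx hy, x' + y', ?_⟩
      rw [hFadd x hx y hy]
      exact hx'.add hy'
    · intro φ i j
      exact ⟨gen_mem φ i j, _, hgenL φ i j⟩
  let Th : FamG G ℕ (Prs Δ × Cone Q × Z) → FamG G (ℕ × Bs G) (Y × Cone Q × Z) := fun x =>
    if hx : ∃ y, SLim (F x) y then hx.choose else 0
  have hTh : ∀ x ∈ cpG G ℕ (Prs Δ × Cone Q × Z), SLim (F x) (Th x) := by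
    intro x hx
    have h2 : ∃ y, SLim (F x) y := (hex x hx).2
    have h3 : Th x = h2.choose := dif_pos h2
    rw [h3]
    exact h2.choose_spec
  refine ⟨Th, ⟨fun x hx y hy => ?_, fun x hx y hy => ?_, fun x hx => ?_, fun φ i j => ?_⟩⟩
  · have h2 := hTh (x + y) (add_mem hx hy)
    rw [hFadd x hx y hy] at h2
    exact h2.unique ((hTh x hx).add (hTh y hy))
  · have h2 := hTh (x * y) (mul_mem hx hy)
    rw [hFmul x hx y hy] at h2
    exact h2.unique ((hTh x hx).mul (hFn x hx) (hTh y hy))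
  · exact (hTh x hx).norm_le (norm_nonneg x) (hFn x hx)
  · exact (hTh _ (gen_mem φ i j)).unique (hgenL φ i j)

end Pool.Agent.Lib.MP_aa9b81_an.Cb
end

end


section
/-!
# Continuous Bernoulli, part Kib: the values at the ends
-/

open scoped ENNReal Topology CompactlySupported
open Function Filter MeasureTheory

noncomputable section

set_option linter.unusedSectionVars false

namespace Pool.Agent.Lib.MP_aa9b81_an.Cb

open Cut Hs

section

variable {G O B B' : Type} [Group G] [TopologicalSpace G] [IsTopologicalGroup G]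
  [LocallyCompactSpace G] [SecondCountableTopology G] [T2Space G] [MeasurableSpace G]
  [BorelSpace G] [DecidableEq G] [LinearOrder O] {V : Set G}
  [TopologicalSpace B] [T2Space B] [MulAction G B] [ContinuousSMul G B]
  [TopologicalSpace B'] [T2Space B'] [MulAction G B'] [ContinuousSMul G B']

theorem SH.congr {e : G ↪ O} {Th : FamG G ℕ B' → FamG G (ℕ × Bs G) B}
    {n n' : (B' → G → ℂ) → B → G → BL (Bs G)} (h : SH e Th n)
    (hn : ∀ φ : C_c(B' × G, ℂ), n (fun b g => φ (b, g)) = n' fun b g => φ (b, g)) :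
    SH e Th n' where
  add := h.add
  mul := h.mul
  norm := h.norm
  gen φ i j := by rw [h.gen, hn]

theorem pv_congr {Th Th' : FamG G ℕ B' → FamG G (ℕ × Bs G) B} {T : G → BL (Bs G)}
    {v : (FamG G ℕ B')ˣ} (hv : v ∈ GL1 (cpG G ℕ B')) (h : ∀ x ∈ cpG G ℕ B', Th x = Th' x) :
    pv Th T v = pv Th' T v := by
  unfold pv
  rw [h _ hv.1, h _ hv.2]

/-- The pull back of units. -/
abbrev pullU {J B B' : Type} [Nonempty J] (p : B' → B) : (FamG G J B)ˣ →* (FamG G J B')ˣ :=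
  Units.map ((pullG p : FamG G J B →+* FamG G J B') : FamG G J B →* FamG G J B')

/-- The value of a conjugated path whose value is a corner. -/
theorem value_corn (χ : Part V) (hV : V ∈ 𝓝 (1 : G)) (e : G ↪ O) {Δ : Df G B V}
    {v : (FamG G ℕ B')ˣ} {Th : FamG G ℕ B' → FamG G (ℕ × Bs G) B} {T : G → BL (Bs G)} {m : B → B'}
    (h : pv Th T v = 1 + corn (sV G) (pullG m ((v : FamG G ℕ B') - 1))) :
    ((extUnit (corn (sV ℕ)) (pullU m v) : (FamG G (ℕ × Bs ℕ) B)ˣ) : FamG G (ℕ × Bs ℕ) B) =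
      1 + cj χ e Δ (pv Th T v - 1) := by
  rw [h, add_sub_cancel_left, cj_corn χ e Δ hV]
  change 1 + corn (sV ℕ) (((pullU m v : (FamG G ℕ B)ˣ) : FamG G ℕ B) - 1) = _
  congr 2

end

section

variable {G Y E Z : Type} [Group G] [TopologicalSpace G]
  [TopologicalSpace Y] [MulAction G Y] [AddCommGroup E] [Module ℝ E]
  [TopologicalSpace E] [T2Space E] [ContinuousAdd E] [ContinuousSMul ℝ E] [DistribMulAction G E]
  [SMulCommClass G ℝ E] [ContinuousConstSMul G E] [TopologicalSpace Z] [MulAction G Z]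
  {V : Set G} (Δ : Df G Y V) (Q : ConvexSpace G E)

/-- The section `y ↦ (y, D y)`. -/
def fM (b : Y × Cone Q × Z) : Prs Δ × Cone Q × Z := (Δ.full b.1, b.2)

/-- The section `y ↦ (y, ∅)`. -/
def nM (b : Y × Cone Q × Z) : Prs Δ × Cone Q × Z := (Δ.non b.1, b.2)

end

variable {G O Y E Z : Type} [Group G] [TopologicalSpace G] [IsTopologicalGroup G]
  [LocallyCompactSpace G] [SecondCountableTopology G] [T2Space G] [MeasurableSpace G]
  [BorelSpace G] [DecidableEq G] [LinearOrder O]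
  [TopologicalSpace Y] [MulAction G Y] [AddCommGroup E] [Module ℝ E]
  [TopologicalSpace E] [T2Space E] [ContinuousAdd E] [ContinuousSMul ℝ E] [DistribMulAction G E]
  [SMulCommClass G ℝ E] [ContinuousConstSMul G E] [TopologicalSpace Z] [MulAction G Z]
  [T2Space Y] [LocallyCompactSpace Y] [ContinuousSMul G Y] [T2Space Z] [LocallyCompactSpace Z]
  [ContinuousSMul G Z] {V : Set G} {Δ : Df G Y V} {Q : ConvexSpace G E}
  [T2Space (Prs Δ)] [ContinuousSMul G (Prs Δ)] [ContinuousSMul G (Cone Q)]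

/-- The first homomorphism. -/
theorem SH_r1 (e : G ↪ O) : SH e (Thr (r1 Δ Q) : FamG G ℕ (Prs Δ × Cone Q × Z) → _) (n1 Δ Q) :=
  (SH_Thr e (r1_smul Δ Q)).congr fun _ => nr_r1 Δ Q _

theorem SH_r3 (e : G ↪ O) (q₀ : Q.Pt) (t : ℝ) :
    SH e (Thr (r3 Δ Q q₀ t) : FamG G ℕ (Prs Δ × Cone Q × Z) → _) (n3 Δ Q q₀ t) :=
  (SH_Thr e (r3_smul Δ Q q₀ t)).congr fun _ => nr_r3 Δ Q q₀ t _

/-- At `s = 1` the operator commutes with the first homomorphism. -/
theorem tF_comm_r1 (χ : Part V) (hV : IsOpen V) (h1 : (1 : G) ∈ V)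
    (hQ : Continuous fun p : G × Q.Pt => p.1 • p.2) (e : G ↪ O) (W : Wc G) :
    ∀ x ∈ cpG G ℕ (Prs Δ × Cone Q × Z),
      tF (Y × Cone Q × Z) (Tw e W 1) * Thr (r1 Δ Q) x =
        Thr (r1 Δ Q) x * tF (Y × Cone Q × Z) (Tw e W 1) := by
  have hVn : V ∈ 𝓝 (1 : G) := hV.mem_nhds h1
  have hT := TOK_Tw χ hVn e W zero_le_one le_rfl
  refine (SH_r1 (Z := Z) e).induction (S := {x | tF (Y × Cone Q × Z) (Tw e W 1) * x =
    x * tF (Y × Cone Q × Z) (Tw e W 1)}) ?_ ?_ ?_ ?_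
  · exact isClosed_eq (continuous_const.mul continuous_id) (continuous_id.mul continuous_const)
  · change _ * 0 = 0 * _
    rw [mul_zero, zero_mul]
  · intro x hx y hy
    change _ * (x + y) = (x + y) * _
    rw [mul_add, add_mul, hx, hy]
  · intro φ i j
    have hφ : Cc (Prs Δ × Cone Q × Z) G fun b g => φ (b, g) :=
      ⟨φ.continuous, φ.hasCompactSupport⟩
    have hn := Sy_n1 χ hV h1 hQ e W zero_le_one le_rfl hφ
    obtain ⟨C, M, hk⟩ := KOK_absS hn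
    refine FamG.ext fun b => ?_
    rw [FamG.mul_apply, FamG.mul_apply, oS_apply hn, tF_apply hT]
    have h2 := Mul_comp_opk (hk b i j) hT.sc.am
    have h3 := opk_comp_Mul (hk b i j) hT.sc.am
    refine h2.trans (Eq.trans ?_ h3.symm)
    congr 1
    funext a a'
    rw [am_comp_ek, ek_comp_am]
    congr 1
    rw [absS_n1 e hφ]
    obtain ⟨M', hM', hb⟩ := exists_bdd_fA (Δ := Δ) (Q := Q) hφ
    have h4 := TT_comm_dia e 1 (W.tr a) (φ := fun F => fA Δ Q (fun b g => φ (b, g)) b a a' (ind F))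
      hM' fun F => hb b a a' (ind F)
    have h5 : Tw e W 1 a' = Tw e W 1 a := TT_one_eq e _ _
    rw [h5]
    exact h4

/-- THE START. -/
theorem start_value (χ : Part V) (hV : IsOpen V) (h1 : (1 : G) ∈ V)
    (hQ : Continuous fun p : G × Q.Pt => p.1 • p.2) (e : G ↪ O) (W : Wc G)
    {v : (FamG G ℕ (Prs Δ × Cone Q × Z))ˣ} (hv : v ∈ GL1 (cpG G ℕ (Prs Δ × Cone Q × Z))) :
    pv (Thr (r1 Δ Q)) (Tw e W 1) v =
      1 + corn (sV G) (pullG (fM Δ Q) ((v : FamG G ℕ (Prs Δ × Cone Q × Z)) - 1)) := by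
  have hVn : V ∈ 𝓝 (1 : G) := hV.mem_nhds h1
  have hT := TOK_Tw χ hVn e W zero_le_one le_rfl
  have hD := DD_of_SH (Δ := Δ.base (Cone Q × Z)) hT (SH_r1 (Z := Z) e)
    (fun φ => Sy_n1 χ hV h1 hQ e W zero_le_one le_rfl ⟨φ.continuous, φ.hasCompactSupport⟩) hv
  have h2 := hD.dval_of_comm (tF_comm_r1 χ hV h1 hQ e W _ hv.2)
    (by rw [← cF_mul, Pp_mul_PV])
  refine h2.trans ?_
  congr 1
  refine Thr_mul_PV (fun b β hβ => ?_) _
  unfold r1 fM
  rw [hβ, Finset.coe_empty, Set.compl_empty, Df.pt_univ]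

/-- THE END. -/
theorem end_value (χ : Part V) (hV : IsOpen V) (h1 : (1 : G) ∈ V)
    (hQ : Continuous fun p : G × Q.Pt => p.1 • p.2) (e : G ↪ O) (W : Wc G) (q₀ : Q.Pt)
    {v : (FamG G ℕ (Prs Δ × Cone Q × Z))ˣ} (hv : v ∈ GL1 (cpG G ℕ (Prs Δ × Cone Q × Z))) :
    pv (Thr (r3 Δ Q q₀ 1)) (Tw e W 0) v =
      1 + corn (sV G) (pullG (nM Δ Q) ((v : FamG G ℕ (Prs Δ × Cone Q × Z)) - 1)) := by
  have hVn : V ∈ 𝓝 (1 : G) := hV.mem_nhds h1
  have hT := TOK_Tw χ hVn e W le_rfl zero_le_one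
  have hD := DD_of_SH (Δ := Δ.base (Cone Q × Z)) hT (SH_r3 (Z := Z) e q₀ 1)
    (fun φ => Sy_n3 χ hV h1 hQ e W q₀ 1 ⟨φ.continuous, φ.hasCompactSupport⟩) hv
  have h3 : ∀ x : FamG G ℕ (Prs Δ × Cone Q × Z),
      Thr (r3 Δ Q q₀ 1) x = corn (sV G) (pullG (nM Δ Q) x) := by
    refine fun x => Thr_eq_corn (fun b β hβ => ?_) (fun b β hβ => ?_) x
    · unfold r3 nM
      rw [if_pos hβ, Df.pt_empty]
    · unfold r3
      rw [if_neg hβ, dif_neg fun h => lt_irrefl _ h.2]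
  have h4 : (Pp : BL (Bs G)) (bv Bs.vac) = (1 : ℂ) • bv Bs.vac := by
    have h5 := congrArg (fun X : BL (Bs G) => X (bv Bs.vac)) (Pp_mul_PV (I := G))
    have h6 : (Pp : BL (Bs G)) ((PV : BL (Bs G)) (bv Bs.vac)) = (PV : BL (Bs G)) (bv Bs.vac) := h5
    rw [PV_vac] at h6
    rw [one_smul]
    exact h6
  have h2 := hD.dval_of_zero (by rw [h3]; exact tF_mul_corn hT (fun a => TT_mul_PV e 0 _) _)
    (by
      rw [h3, cF_mul_corn (c := 1) h4, one_smul])
  refine h2.trans ?_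
  rw [h3]

end Pool.Agent.Lib.MP_aa9b81_an.Cb
end

end


section
/-!
# Continuous Bernoulli, part Kj: the theorem for the space of pairs
-/

open scoped ENNReal Topology CompactlySupported
open Function Filter MeasureTheory

noncomputable section

set_option linter.unusedSectionVars false

namespace Pool.Agent.Lib.MP_aa9b81_an.Cb

open Cut Hs

theorem exists_linearOrder (G : Type) : ∃ (O : Type) (_ : LinearOrder O), Nonempty (G ↪ O) := by
  classical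
  exact ⟨G, linearOrderOfSTO (WellOrderingRel (α := G)), ⟨Embedding.refl G⟩⟩

instance countable_Bs {I : Type} [Countable I] : Countable (Bs I) := by
  unfold Bs
  infer_instance

variable {G Y E Z : Type} [Group G] [TopologicalSpace G] [IsTopologicalGroup G]
  [LocallyCompactSpace G] [SecondCountableTopology G] [T2Space G] [MeasurableSpace G]
  [BorelSpace G]
  [TopologicalSpace Y] [MulAction G Y] [AddCommGroup E] [Module ℝ E]
  [TopologicalSpace E] [T2Space E] [ContinuousAdd E] [ContinuousSMul ℝ E] [DistribMulAction G E]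
  [SMulCommClass G ℝ E] [ContinuousConstSMul G E] [TopologicalSpace Z] [MulAction G Z]
  [T2Space Y] [LocallyCompactSpace Y] [ContinuousSMul G Y] [T2Space Z] [LocallyCompactSpace Z]
  [ContinuousSMul G Z]
  {V : Set G} (Δ : Df G Y V) (Q : ConvexSpace G E)

section Stages

variable {O : Type} [DecidableEq G] [LinearOrder O] [T2Space (Prs Δ)] [ContinuousSMul G (Prs Δ)]
  [ContinuousSMul G (Cone Q)] {Δ Q}

/-- Stage 1. -/
theorem stage1 (χ : Part V) (hV : IsOpen V) (h1 : (1 : G) ∈ V)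
    (hQ : Continuous fun p : G × Q.Pt => p.1 • p.2) (e : G ↪ O) (W : Wc G)
    {v : (FamG G ℕ (Prs Δ × Cone Q × Z))ˣ} (hv : v ∈ GL1 (cpG G ℕ (Prs Δ × Cone Q × Z)))
    {U₀ U₁ : (FamG G (ℕ × Bs ℕ) (Y × Cone Q × Z))ˣ}
    (h₀ : (U₀ : FamG G (ℕ × Bs ℕ) (Y × Cone Q × Z)) =
      1 + cj χ e (Δ.base (Cone Q × Z)) (pv (Thr (r1 Δ Q)) (Tw e W 1) v - 1))
    (h₁ : (U₁ : FamG G (ℕ × Bs ℕ) (Y × Cone Q × Z)) =
      1 + cj χ e (Δ.base (Cone Q × Z)) (pv (Thr (r1 Δ Q)) (Tw e W 0) v - 1)) :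
    U₀⁻¹ * U₁ ∈ E1 (cpG G (ℕ × Bs ℕ) (Y × Cone Q × Z)) := by
  have hVn : V ∈ 𝓝 (1 : G) := hV.mem_nhds h1
  refine path_E1 (χ := χ) (Δ := Δ.base (Cone Q × Z)) hVn
    (Th := fun _ => Thr (r1 Δ Q)) (n := fun _ => n1 Δ Q) (T := fun t => Tw e W (1 - t))
    (fun t ht => TOK_Tw χ hVn e W (by linarith [ht.2]) (by linarith [ht.1]))
    (continuousOn_Tw χ hVn e W) (fun t _ => SH_r1 e)
    (fun t ht φ => Sy_n1 χ hV h1 hQ e W (by linarith [ht.2]) (by linarith [ht.1])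
      ⟨φ.continuous, φ.hasCompactSupport⟩)
    (fun x _ => continuousOn_const) hv ?_ ?_
  · rw [h₀, sub_zero]
  · rw [h₁, sub_self]

/-- Stage 3. -/
theorem stage3 (χ : Part V) (hV : IsOpen V) (h1 : (1 : G) ∈ V)
    (hQ : Continuous fun p : G × Q.Pt => p.1 • p.2) (e : G ↪ O) (W : Wc G) (q₀ : Q.Pt)
    {v : (FamG G ℕ (Prs Δ × Cone Q × Z))ˣ} (hv : v ∈ GL1 (cpG G ℕ (Prs Δ × Cone Q × Z)))
    {U₀ U₁ : (FamG G (ℕ × Bs ℕ) (Y × Cone Q × Z))ˣ}
    (h₀ : (U₀ : FamG G (ℕ × Bs ℕ) (Y × Cone Q × Z)) =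
      1 + cj χ e (Δ.base (Cone Q × Z)) (pv (Thr (r3 Δ Q q₀ 0)) (Tw e W 0) v - 1))
    (h₁ : (U₁ : FamG G (ℕ × Bs ℕ) (Y × Cone Q × Z)) =
      1 + cj χ e (Δ.base (Cone Q × Z)) (pv (Thr (r3 Δ Q q₀ 1)) (Tw e W 0) v - 1)) :
    U₀⁻¹ * U₁ ∈ E1 (cpG G (ℕ × Bs ℕ) (Y × Cone Q × Z)) := by
  have hVn : V ∈ 𝓝 (1 : G) := hV.mem_nhds h1
  have hSy : ∀ t ∈ Set.Icc (0 : ℝ) 1, ∀ φ : C_c((Prs Δ × Cone Q × Z) × G, ℂ),
      Sy χ e (Δ.base (Cone Q × Z)) (Tw e W 0) (n3 Δ Q q₀ t fun b g => φ (b, g)) :=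
    fun t _ φ => Sy_n3 χ hV h1 hQ e W q₀ t ⟨φ.continuous, φ.hasCompactSupport⟩
  refine path_E1 (χ := χ) (Δ := Δ.base (Cone Q × Z)) hVn
    (Th := fun t => Thr (r3 Δ Q q₀ t)) (n := fun t => n3 Δ Q q₀ t) (T := fun _ => Tw e W 0)
    (fun t _ => TOK_Tw χ hVn e W le_rfl zero_le_one) continuousOn_const (fun t _ => SH_r3 e q₀ t)
    hSy ?_ hv h₀ h₁
  refine continuousOn_Th (Δ := Δ.base (Cone Q × Z)) (χ := χ) (T := fun _ => Tw e W 0)
    (n := fun t => n3 Δ Q q₀ t) (fun t _ => SH_r3 e q₀ t) hSy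
    (exists_supp_symbol fun t _ _ h b => n3_eq_zero q₀ t h b) ?_
  intro φ t₀ ht₀ ε hε
  exact n3_time hV h1 q₀ ⟨φ.continuous, φ.hasCompactSupport⟩ ht₀ hε

/-- Stage 2. -/
theorem stage2 (χ : Part V) (hV : IsOpen V) (h1 : (1 : G) ∈ V)
    (hQ : Continuous fun p : G × Q.Pt => p.1 • p.2) (e : G ↪ O) (W : Wc G) (q₀ : Q.Pt)
    {v : (FamG G ℕ (Prs Δ × Cone Q × Z))ˣ} (hv : v ∈ GL1 (cpG G ℕ (Prs Δ × Cone Q × Z)))
    {U₀ U₁ : (FamG G (ℕ × Bs ℕ) (Y × Cone Q × Z))ˣ}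
    (h₀ : (U₀ : FamG G (ℕ × Bs ℕ) (Y × Cone Q × Z)) =
      1 + cj χ e (Δ.base (Cone Q × Z)) (pv (Thr (r1 Δ Q)) (Tw e W 0) v - 1))
    (h₁ : (U₁ : FamG G (ℕ × Bs ℕ) (Y × Cone Q × Z)) =
      1 + cj χ e (Δ.base (Cone Q × Z)) (pv (Thr (r3 Δ Q q₀ 0)) (Tw e W 0) v - 1)) :
    U₀⁻¹ * U₁ ∈ E1 (cpG G (ℕ × Bs ℕ) (Y × Cone Q × Z)) := by
  have hVn : V ∈ 𝓝 (1 : G) := hV.mem_nhds h1
  choose Th hTh using fun θ : ℝ => exists_SH2 (Z := Z) (Δ := Δ) (Q := Q) hV h1 hQ e θ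
  have hSy : ∀ t ∈ Set.Icc (0 : ℝ) 1, ∀ φ : C_c((Prs Δ × Cone Q × Z) × G, ℂ),
      Sy χ e (Δ.base (Cone Q × Z)) (Tw e W 0)
        (n2 Δ Q (t * (Real.pi / 2)) fun b g => φ (b, g)) :=
    fun t _ φ => Sy_n2 χ hV h1 hQ e W _ ⟨φ.continuous, φ.hasCompactSupport⟩
  have hpi : 0 < Real.pi / 2 := by positivity
  have e0 : ∀ x ∈ cpG G ℕ (Prs Δ × Cone Q × Z), Thr (r1 Δ Q) x = Th 0 x :=
    (SH_r1 e).eq ((hTh 0).congr fun φ => n2_zero hV h1 ⟨φ.continuous, φ.hasCompactSupport⟩)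
  have e1 : ∀ x ∈ cpG G ℕ (Prs Δ × Cone Q × Z), Thr (r3 Δ Q q₀ 0) x = Th (Real.pi / 2) x :=
    (SH_r3 e q₀ 0).eq ((hTh (Real.pi / 2)).congr fun φ =>
      n2_pi_div_two hV h1 q₀ ⟨φ.continuous, φ.hasCompactSupport⟩)
  refine path_E1 (χ := χ) (Δ := Δ.base (Cone Q × Z)) hVn
    (Th := fun t => Th (t * (Real.pi / 2))) (n := fun t => n2 Δ Q (t * (Real.pi / 2)))
    (T := fun _ => Tw e W 0)
    (fun t _ => TOK_Tw χ hVn e W le_rfl zero_le_one) continuousOn_const (fun t _ => hTh _)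
    hSy ?_ hv ?_ ?_
  · refine continuousOn_Th (Δ := Δ.base (Cone Q × Z)) (χ := χ) (T := fun _ => Tw e W 0)
      (n := fun t => n2 Δ Q (t * (Real.pi / 2))) (fun t _ => hTh _) hSy
      (exists_supp_symbol fun t _ _ h b => n2_eq_zero _ h b) ?_
    intro φ t₀ ht₀ ε hε
    obtain ⟨δ, hδ, h⟩ := n2_time (Δ := Δ) (Q := Q) hV h1
      (⟨φ.continuous, φ.hasCompactSupport⟩ : Cc _ G fun b g => φ (b, g)) (t₀ * (Real.pi / 2)) hε
    refine ⟨δ / (Real.pi / 2), by positivity, fun t _ ht b g => h _ ?_ b g⟩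
    rw [← sub_mul, abs_mul, abs_of_pos hpi]
    rwa [lt_div_iff₀ hpi] at ht
  · rw [h₀, zero_mul, pv_congr hv e0]
  · rw [h₁, one_mul, pv_congr hv e1]

end Stages

/-- THE THEOREM FOR THE SPACE OF PAIRS. -/
theorem core (hV : IsOpen V) (h1 : (1 : G) ∈ V)
    (hQ : Continuous fun p : G × Q.Pt => p.1 • p.2) [T2Space (Prs Δ)]
    [ContinuousSMul G (Prs Δ)] [ContinuousSMul G (Cone Q)]
    {v : (FamG G ℕ (Prs Δ × Cone Q × Z))ˣ} (hv : v ∈ GL1 (cpG G ℕ (Prs Δ × Cone Q × Z))) :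
    (pullU (fM Δ Q) v)⁻¹ * pullU (nM Δ Q) v ∈ E1 (cpG G ℕ (Y × Cone Q × Z)) := by
  classical
  have hVn : V ∈ 𝓝 (1 : G) := hV.mem_nhds h1
  obtain ⟨χ⟩ := exists_part hVn
  obtain ⟨W⟩ := exists_wc (G := G)
  obtain ⟨O, _, ⟨e⟩⟩ := exists_linearOrder G
  obtain ⟨q₀⟩ : Nonempty Q.Pt := Q.nonempty.to_subtype
  have hT0 := TOK_Tw χ hVn e W le_rfl zero_le_one
  have hT1 := TOK_Tw χ hVn e W zero_le_one le_rfl
  obtain ⟨A, hA, hA'⟩ := exists_pu (Δ := Δ.base (Cone Q × Z)) hVn hT1 (SH_r1 (Z := Z) e)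
    (fun φ => Sy_n1 χ hV h1 hQ e W zero_le_one le_rfl ⟨φ.continuous, φ.hasCompactSupport⟩) hv
  obtain ⟨B, hB, hB'⟩ := exists_pu (Δ := Δ.base (Cone Q × Z)) hVn hT0 (SH_r1 (Z := Z) e)
    (fun φ => Sy_n1 χ hV h1 hQ e W le_rfl zero_le_one ⟨φ.continuous, φ.hasCompactSupport⟩) hv
  obtain ⟨C, hC, hC'⟩ := exists_pu (Δ := Δ.base (Cone Q × Z)) hVn hT0 (SH_r3 (Z := Z) e q₀ 0)
    (fun φ => Sy_n3 χ hV h1 hQ e W q₀ 0 ⟨φ.continuous, φ.hasCompactSupport⟩) hv
  obtain ⟨D, hD, hD'⟩ := exists_pu (Δ := Δ.base (Cone Q × Z)) hVn hT0 (SH_r3 (Z := Z) e q₀ 1)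
    (fun φ => Sy_n3 χ hV h1 hQ e W q₀ 1 ⟨φ.continuous, φ.hasCompactSupport⟩) hv
  have s1 := stage1 χ hV h1 hQ e W hv hA' hB'
  have s2 := stage2 χ hV h1 hQ e W q₀ hv hB' hC'
  have s3 := stage3 χ hV h1 hQ e W q₀ hv hC' hD'
  have hs : A⁻¹ * D ∈ E1 (cpG G (ℕ × Bs ℕ) (Y × Cone Q × Z)) := by
    have h2 := mul_mem (mul_mem s1 s2) s3
    have h3 : A⁻¹ * B * (B⁻¹ * C) * (C⁻¹ * D) = A⁻¹ * D := by group
    rwa [h3] at h2
  have hAe : A = extUnit (corn (sV ℕ)) (pullU (fM Δ Q) v) := by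
    ext1
    rw [hA', value_corn χ hVn e (start_value χ hV h1 hQ e W hv)]
  have hDe : D = extUnit (corn (sV ℕ)) (pullU (nM Δ Q) v) := by
    ext1
    rw [hD', value_corn χ hVn e (end_value χ hV h1 hQ e W q₀ hv)]
  rw [hAe, hDe, ← map_inv, ← map_mul] at hs
  refine corner (sV ℕ) ?_ hs
  have hpf : IsProperMap (fM (Z := Z) Δ Q) :=
    ((Δ.isClosedEmbedding_full hVn).isProperMap.prodMap isProperMap_id)
  have hpn : IsProperMap (nM (Z := Z) Δ Q) :=
    ((Δ.isClosedEmbedding_non hVn).isProperMap.prodMap isProperMap_id)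
  have hef : ∀ (g : G) b, fM (Z := Z) Δ Q (g • b) = g • fM Δ Q b := fun g b =>
    Prod.ext (Δ.full_smul g b.1) rfl
  have hen : ∀ (g : G) b, nM (Z := Z) Δ Q (g • b) = g • nM Δ Q b := fun g b =>
    Prod.ext (Δ.non_smul g b.1) rfl
  exact mul_mem (inv_mem (GL1_map (pullG_mem hpf hef) hv)) (GL1_map (pullG_mem hpn hen) hv)

end Pool.Agent.Lib.MP_aa9b81_an.Cb
end

end


section
/-!
# Continuous Bernoulli, part Kl: deformations
-/

open scoped ENNReal Topology CompactlySupported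
open Function Filter MeasureTheory

noncomputable section

set_option linter.unusedSectionVars false

namespace Pool.Agent.Lib.MP_aa9b81_an.Cb

open Cut Hs

section Split

variable {G J B B₀ B₁ : Type} [Group G] [TopologicalSpace G] [IsTopologicalGroup G]
  [LocallyCompactSpace G] [SecondCountableTopology G] [T2Space G] [MeasurableSpace G] [BorelSpace G]
  [Nonempty J] [TopologicalSpace B] [T2Space B] [MulAction G B] [ContinuousSMul G B]
  [TopologicalSpace B₀] [T2Space B₀] [MulAction G B₀] [ContinuousSMul G B₀]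
  [TopologicalSpace B₁] [T2Space B₁] [MulAction G B₁] [ContinuousSMul G B₁]

/-- Injectivity of the extension by zero on `K₁`. PROOF: by `mem_E1_iff` (CutM/K.lean; compare the proofs there) there is a path `p t`, `t ∈ [0,1]`, in `GL1 (cpG G J B)` from `1` to `extUnit (extG ι) v`, with continuous values (a `Path` in the topological group `GL1`; the value is continuous on it). Let
`q t = p t * (pullU r (pullU i (p t)))⁻¹`: it is in `GL1 (cpG G J B)` (`GL1_map`, `pullG_mem`), `pullU i (q t) = 1` (`h.ret`), `q 0 = 1`, `q 1 = extUnit (extG ι) v` (`pullG i ∘ extG ι = 0` on elements: the range of `i` is disjoint from the range of `ι`: `hd`), and `q t` has continuous values (the inverse is continuous on units).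
By `ExactSeq.exists_ext` (`Split.exactSeq`) `q t = extUnit (extG ι) (u t)` with `u t ∈ GL1 (cpG G J B₀)`; `extG ι` is isometric, so `u t` has continuous values and `u 0 = 1`, `u 1 = v` (`Units.ext`). `E1_of_path`. -/
theorem Split.inj {ι : B₀ ↪ B} {i : B₁ → B} {r : B → B₁} (h : Split (G := G) ι i r)
    (hd : ∀ z, i z ∉ Set.range ι) {v : (FamG G J B₀)ˣ} (hv : v ∈ GL1 (cpG G J B₀))
    (hE : extUnit (extG ι) v ∈ E1 (cpG G J B)) : v ∈ E1 (cpG G J B₀) := by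
  obtain ⟨hw, hj⟩ := (mem_E1_iff isClosed_cpG _).1 hE
  have hj' : Joined (1 : GL1 (cpG G J B)) ⟨extUnit (extG ι) v, hw⟩ := hj
  obtain ⟨γ⟩ := hj'
  have hinj : ∀ x : FamG G J B₀, extG ι x = 0 → x = 0 := fun x hx => by
    rw [← norm_eq_zero, ← norm_extG ι, hx, norm_zero]
  let p : ℝ → (FamG G J B)ˣ := fun t => ((γ.extend t : GL1 (cpG G J B)) : (FamG G J B)ˣ)
  let q : ℝ → (FamG G J B)ˣ := fun t => p t * (pullU r (pullU i (p t)))⁻¹
  have hp : ∀ t, p t ∈ GL1 (cpG G J B) := fun t => (γ.extend t).2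
  have hq : ∀ t, q t ∈ GL1 (cpG G J B) := fun t => mul_mem (hp t)
    (inv_mem (GL1_map (pullG_mem h.pr h.er) (GL1_map (pullG_mem h.pi h.ei) (hp t))))
  have hri : ∀ x : (FamG G J B₁)ˣ, pullU i (pullU r x) = x := by
    intro x
    refine Units.ext (FamG.ext fun z => ?_)
    show (x : FamG G J B₁) (r (i z)) = (x : FamG G J B₁) z
    rw [h.ret]
  have hq1 : ∀ t, pullU i (q t) = 1 := by
    intro t
    show pullU i (p t * (pullU r (pullU i (p t)))⁻¹) = 1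
    rw [map_mul, map_inv, hri, mul_inv_cancel]
  choose u hu hu2 using fun t => (h.exactSeq (J := J)).exists_ext (hq t) (hq1 t)
  have hpc : Continuous p := continuous_subtype_val.comp γ.continuous_extend
  have hqc : Continuous q := by
    have h1 : Continuous fun t => pullU r (pullU i (p t)) :=
      (Continuous.units_map _ (continuous_pullG r)).comp
        ((Continuous.units_map _ (continuous_pullG i)).comp hpc)
    exact hpc.mul h1.inv
  have hsub : ∀ t t', ‖((u t : (FamG G J B₀)ˣ) : FamG G J B₀) - (u t' : (FamG G J B₀)ˣ)‖ =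
      ‖((q t : (FamG G J B)ˣ) : FamG G J B) - (q t' : (FamG G J B)ˣ)‖ := by
    intro t t'
    rw [← norm_extG ι]
    congr 1
    have h1 : ∀ t, extG ι (((u t : (FamG G J B₀)ˣ) : FamG G J B₀) - 1) =
        ((q t : (FamG G J B)ˣ) : FamG G J B) - 1 := by
      intro t
      have h2 : 1 + extG ι (((u t : (FamG G J B₀)ˣ) : FamG G J B₀) - 1) =
          ((q t : (FamG G J B)ˣ) : FamG G J B) :=
        congrArg (fun x : (FamG G J B)ˣ => (x : FamG G J B)) (hu2 t)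
      rw [← h2]
      abel
    have h3 : ((u t : (FamG G J B₀)ˣ) : FamG G J B₀) - (u t' : (FamG G J B₀)ˣ) =
        (((u t : (FamG G J B₀)ˣ) : FamG G J B₀) - 1) -
          (((u t' : (FamG G J B₀)ˣ) : FamG G J B₀) - 1) := by abel
    rw [h3, map_sub, h1, h1]
    abel
  have huc : Continuous fun t => ((u t : (FamG G J B₀)ˣ) : FamG G J B₀) := by
    rw [continuous_iff_continuousAt]
    intro t₀
    rw [ContinuousAt, tendsto_iff_norm_sub_tendsto_zero]
    simp only [hsub]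
    exact tendsto_iff_norm_sub_tendsto_zero.1 ((Units.continuous_val.comp hqc).tendsto t₀)
  have hun : ∀ (t : ℝ) (x : (FamG G J B₀)ˣ), q t = extUnit (extG ι) x → u t = x := by
    intro t x hx
    refine Units.ext (sub_eq_zero.1 (hinj _ ?_))
    have h1 : extUnit (extG ι) (u t) = extUnit (extG ι) x := (hu2 t).trans hx
    have h2 : 1 + extG ι (((u t : (FamG G J B₀)ˣ) : FamG G J B₀) - 1) =
        1 + extG ι ((x : FamG G J B₀) - 1) :=
      congrArg (fun x : (FamG G J B)ˣ => (x : FamG G J B)) h1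
    have h3 := add_left_cancel h2
    have h4 : ((u t : (FamG G J B₀)ˣ) : FamG G J B₀) - x =
        (((u t : (FamG G J B₀)ˣ) : FamG G J B₀) - 1) - ((x : FamG G J B₀) - 1) := by abel
    rw [h4, map_sub, h3, sub_self]
  have h0 : u 0 = 1 := by
    refine hun 0 1 ?_
    have h1 : p 0 = 1 := by
      show ((γ.extend 0 : GL1 (cpG G J B)) : (FamG G J B)ˣ) = 1
      rw [γ.extend_zero]
      rfl
    show p 0 * (pullU r (pullU i (p 0)))⁻¹ = _
    rw [h1, map_one, map_one, inv_one, mul_one, map_one]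
  have h1 : u 1 = v := by
    refine hun 1 v ?_
    have h1 : p 1 = extUnit (extG ι) v := by
      show ((γ.extend 1 : GL1 (cpG G J B)) : (FamG G J B)ˣ) = _
      rw [γ.extend_one]
    have h2 : pullU i (extUnit (extG ι) v) = (1 : (FamG G J B₁)ˣ) := by
      refine Units.ext (FamG.ext fun z => ?_)
      show (1 : FamG G J B) (i z) + extG ι ((v : FamG G J B₀) - 1) (i z) = 1
      rw [extG_apply_of_notMem ι _ (hd z), add_zero]
      rfl
    show p 1 * (pullU r (pullU i (p 1)))⁻¹ = _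
    rw [h1, h2, map_one, inv_one, mul_one]
  have h2 := E1_of_path (A := cpG G J B₀) u (fun t _ => hu t) huc.continuousOn
  rwa [h0, h1, inv_one, one_mul] at h2

/-- If every unit is equivalent to its pull back under the retraction, then `K₁(A(B₀)) = 0`. PROOF: for `v ∈ GL1 (cpG G J B₀)` let `w = extUnit (extG ι) v ∈ GL1 (cpG G J B)` (`extUnit_mem_GL1`, `extG_mem`); `pullU (i ∘ r) w = 1`, since `w (i z) = 1` (`extG_apply_of_notMem`); so `w⁻¹ ∈ E1`, and `Split.inj`. -/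
theorem Split.zero {ι : B₀ ↪ B} {i : B₁ → B} {r : B → B₁} (h : Split (G := G) ι i r)
    (hd : ∀ z, i z ∉ Set.range ι)
    (H : ∀ w ∈ GL1 (cpG G J B), w⁻¹ * pullU (fun b => i (r b)) w ∈ E1 (cpG G J B)) :
    GL1 (cpG G J B₀) ≤ E1 (cpG G J B₀) := by
  intro v hv
  refine h.inj hd hv ?_
  have hw : extUnit (extG ι) v ∈ GL1 (cpG G J B) := extUnit_mem_GL1 (extG_mem h.opn h.eι) hv
  have h1 := H _ hw
  have h2 : pullU (fun b => i (r b)) (extUnit (extG ι) v) = (1 : (FamG G J B)ˣ) := by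
    refine Units.ext (FamG.ext fun b => ?_)
    show (1 : FamG G J B) (i (r b)) + extG ι ((v : FamG G J B₀) - 1) (i (r b)) = 1
    rw [extG_apply_of_notMem ι _ (hd _), add_zero]
    rfl
  rw [h2, mul_one] at h1
  exact (inv_mem_iff (H := E1 (cpG G J B))).1 h1

/-- The restriction is injective on `K₁`. PROOF: `w⁻¹ * pullU r (pullU i w) ∈ E1`, and `pullU r (pullU i w) ∈ E1` (`E1_map`). -/
theorem Split.inj' {ι : B₀ ↪ B} {i : B₁ → B} {r : B → B₁} (h : Split (G := G) ι i r)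
    (H : ∀ w ∈ GL1 (cpG G J B), w⁻¹ * pullU (fun b => i (r b)) w ∈ E1 (cpG G J B)) :
    ∀ w ∈ GL1 (cpG G J B), pullU i w ∈ E1 (cpG G J B₁) → w ∈ E1 (cpG G J B) := by
  intro w hw hi
  have h1 := H w hw
  have h2 : pullU r (pullU i w) ∈ E1 (cpG G J B) :=
    E1_map (norm_pullG_le r) (pullG_mem h.pr h.er) hi
  have h3 : pullU (fun b => i (r b)) w = pullU r (pullU i w) := rfl
  rw [h3] at h1
  have h4 := mul_mem h2 (inv_mem h1)
  have h5 : pullU r (pullU i w) * (w⁻¹ * pullU r (pullU i w))⁻¹ = w := by group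
  rwa [h5] at h4

/-- The restriction is surjective on `K₁`. PROOF: `u = pullU r v`, `pullU i u = v` (`h.ret`). -/
theorem Split.surj' {ι : B₀ ↪ B} {i : B₁ → B} {r : B → B₁} (h : Split (G := G) ι i r) :
    ∀ v ∈ GL1 (cpG G J B₁), ∃ u ∈ GL1 (cpG G J B), (pullU i u)⁻¹ * v ∈ E1 (cpG G J B₁) := by
  intro v hv
  refine ⟨pullU r v, GL1_map (pullG_mem h.pr h.er) hv, ?_⟩
  have h1 : pullU i (pullU r v) = v := by
    refine Units.ext (FamG.ext fun z => ?_)
    show (v : FamG G J B₁) (r (i z)) = (v : FamG G J B₁) z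
    rw [h.ret]
  rw [h1, inv_mul_cancel]
  exact one_mem _

end Split

/-- The complement of an invariant subset. -/
def _root_.Pool.Agent.Lib.MP_aa9b81_an.Cut.InvSet.cpl {Γ P : Type} [Group Γ] [MulAction Γ P]
    (C : InvSet Γ P) : InvSet Γ P where
  carrier := C.carrierᶜ
  inv g p hp h := hp (by
    have h1 := C.inv g⁻¹ _ h
    rwa [inv_smul_smul] at h1)

instance {G P : Type} [Group G] [TopologicalSpace G] [MulAction G P] [TopologicalSpace P]
    [ContinuousSMul G P] (A : InvSet G P) : ContinuousSMul G A.Pt :=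
  ⟨Continuous.subtype_mk (continuous_fst.smul (continuous_subtype_val.comp continuous_snd)) _⟩

variable {G Y E Z : Type} [Group G] [TopologicalSpace G] [IsTopologicalGroup G]
  [LocallyCompactSpace G] [SecondCountableTopology G] [T2Space G] [MeasurableSpace G]
  [BorelSpace G]
  [TopologicalSpace Y] [MulAction G Y] [AddCommGroup E] [Module ℝ E]
  [TopologicalSpace E] [T2Space E] [ContinuousAdd E] [ContinuousSMul ℝ E] [DistribMulAction G E]
  [SMulCommClass G ℝ E] [ContinuousConstSMul G E] [TopologicalSpace Z] [MulAction G Z]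
  [T2Space Y] [LocallyCompactSpace Y] [ContinuousSMul G Y] [T2Space Z] [LocallyCompactSpace Z]
  [ContinuousSMul G Z]
  {V : Set G} {Δ : Df G Y V} {Q : ConvexSpace G E}

/-- THE DEFORMATION. PROOF: `u = pullU (Prod.map H id) v` is in `GL1` (`GL1_map`, `pullG_mem`: `Prod.map H id` is proper); `core` for `u`, and `pullU (fM Δ Q) u = v` (`h0`), `pullU (nM Δ Q) u` is the right side (`Units.ext`, `FamG.ext`, `pullG_apply`). The instances: `Prs.t2Space`, `Prs.continuousSMul`, `cone_continuousSMul`. -/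
theorem deform (hV : IsOpen V) (h1 : (1 : G) ∈ V)
    (hQ : Continuous fun p : G × Q.Pt => p.1 • p.2) [ContinuousSMul G (Cone Q)] {H : Prs Δ → Y}
    (hH : IsProperMap H) (hHe : ∀ (g : G) x, H (g • x) = g • H x) (h0 : ∀ y, H (Δ.full y) = y)
    {v : (FamG G ℕ (Y × Cone Q × Z))ˣ} (hv : v ∈ GL1 (cpG G ℕ (Y × Cone Q × Z))) :
    v⁻¹ * pullU (fun b : Y × Cone Q × Z => ((H (Δ.non b.1), b.2) : Y × Cone Q × Z)) v ∈
      E1 (cpG G ℕ (Y × Cone Q × Z)) := by
  have hV1 : V ∈ 𝓝 (1 : G) := hV.mem_nhds h1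
  have := Prs.t2Space Δ hV1
  have := Prs.continuousSMul Δ hV1
  let P : Prs Δ × Cone Q × Z → Y × Cone Q × Z := Prod.map H id
  have hP : IsProperMap P := hH.prodMap isProperMap_id
  have hPe : ∀ (g : G) z, P (g • z) = g • P z := fun g z => Prod.ext (hHe g z.1) rfl
  have h2 := core Δ Q hV h1 hQ (v := pullU P v) (GL1_map (pullG_mem hP hPe) hv)
  have h3 : pullU (fM Δ Q) (pullU P v) = v := by
    refine Units.ext (FamG.ext fun z => ?_)
    show (v : FamG G ℕ (Y × Cone Q × Z)) (H (Δ.full z.1), z.2) = (v : FamG G ℕ (Y × Cone Q × Z)) z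
    rw [h0]
  rw [h3] at h2
  exact h2

/-- The decomposition of `Y × Cone Q × Z`. -/
theorem deform_split (hV : IsOpen V) (h1 : (1 : G) ∈ V) [ContinuousSMul G (Cone Q)]
    (Y₀ : InvSet G Y) (hY₀ : IsClosed Y₀.carrier) {H : Prs Δ → Y} (hH : IsProperMap H)
    (hHe : ∀ (g : G) x, H (g • x) = g • H x)
    (h2 : ∀ y, H (Δ.non y) ∈ Y₀.carrier) (h3 : ∀ y ∈ Y₀.carrier, H (Δ.non y) = y) :
    Split (G := G) (⟨fun x => (Y₀.cpl.val x.1, x.2), fun _ _ h => Prod.ext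
        (Y₀.cpl.val_injective (Prod.ext_iff.1 h).1) (Prod.ext_iff.1 h).2⟩ :
        (Y₀.cpl.Pt × Cone Q × Z) ↪ (Y × Cone Q × Z))
      (fun x : Y₀.Pt × Cone Q × Z => ((Y₀.val x.1, x.2) : Y × Cone Q × Z))
      (fun b : Y × Cone Q × Z => ((⟨H (Δ.non b.1), h2 b.1⟩, b.2) : Y₀.Pt × Cone Q × Z)) where
  opn := (IsOpen.isOpenEmbedding_subtypeVal hY₀.isOpen_compl).prodMap Topology.IsOpenEmbedding.id
  eι _ _ := rfl
  pi := ((IsClosed.isClosedEmbedding_subtypeVal hY₀).prodMap Topology.IsClosedEmbedding.id).isProperMap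
  ei _ _ := rfl
  pr := by
    have hn := (Δ.isClosedEmbedding_non (hV.mem_nhds h1)).isProperMap
    have hc : IsProperMap fun y : Y => H (Δ.non y) := hH.comp hn
    have hr : IsProperMap fun y : Y => (⟨H (Δ.non y), h2 y⟩ : Y₀.Pt) :=
      isProperMap_of_comp_of_inj (g := Y₀.val) (Continuous.subtype_mk hc.continuous _)
        Y₀.continuous_val hc Y₀.val_injective
    exact hr.prodMap isProperMap_id
  er g b := by
    refine Prod.ext (Subtype.ext ?_) rfl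
    show H (Δ.non (g • b.1)) = g • H (Δ.non b.1)
    rw [Δ.non_smul, hHe]
  ret x := Prod.ext (Subtype.ext (h3 _ x.1.2)) rfl
  compl b hb := by
    by_cases h : b.1 ∈ Y₀.carrier
    · exact ⟨(⟨b.1, h⟩, b.2), rfl⟩
    · exact absurd ⟨(⟨b.1, h⟩, b.2), rfl⟩ hb

/-- The complement. PROOF: `Split.zero` for `ι = ` the inclusion of `Y₀.cpl.Pt × Cone Q × Z`, `i = (Y₀.val x.1, x.2)`, `r = (H (non y), x.2)` (a closed, so proper, inclusion; `r` is proper: `H` is proper and `non` is a closed embedding, `Df.isClosedEmbedding_non`, with values in `Y₀`). -/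
theorem deform_zero (hV : IsOpen V) (h1 : (1 : G) ∈ V)
    (hQ : Continuous fun p : G × Q.Pt => p.1 • p.2) [ContinuousSMul G (Cone Q)]
    (Y₀ : InvSet G Y) (hY₀ : IsClosed Y₀.carrier) {H : Prs Δ → Y} (hH : IsProperMap H)
    (hHe : ∀ (g : G) x, H (g • x) = g • H x) (h0 : ∀ y, H (Δ.full y) = y)
    (h2 : ∀ y, H (Δ.non y) ∈ Y₀.carrier) (h3 : ∀ y ∈ Y₀.carrier, H (Δ.non y) = y) :
    GL1 (cpG G ℕ (Y₀.cpl.Pt × Cone Q × Z)) ≤ E1 (cpG G ℕ (Y₀.cpl.Pt × Cone Q × Z)) := by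
  refine (deform_split (Q := Q) (Z := Z) hV h1 Y₀ hY₀ hH hHe h2 h3).zero ?_ ?_
  · rintro z ⟨x, hx⟩
    have h4 : Y₀.cpl.val x.1 = Y₀.val z.1 := congrArg Prod.fst hx
    exact x.1.2 (by
      show Y₀.cpl.val x.1 ∈ Y₀.carrier
      rw [h4]
      exact z.1.2)
  · intro w hw
    exact deform hV h1 hQ hH hHe h0 hw

/-- The restriction to `Y₀`. PROOF: `Split.inj'`, `Split.surj'`. -/
theorem deform_bij (hV : IsOpen V) (h1 : (1 : G) ∈ V)
    (hQ : Continuous fun p : G × Q.Pt => p.1 • p.2) [ContinuousSMul G (Cone Q)]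
    (Y₀ : InvSet G Y) (hY₀ : IsClosed Y₀.carrier) {H : Prs Δ → Y} (hH : IsProperMap H)
    (hHe : ∀ (g : G) x, H (g • x) = g • H x) (h0 : ∀ y, H (Δ.full y) = y)
    (h2 : ∀ y, H (Δ.non y) ∈ Y₀.carrier) (h3 : ∀ y ∈ Y₀.carrier, H (Δ.non y) = y) :
    (∀ w ∈ GL1 (cpG G ℕ (Y × Cone Q × Z)),
        pullU (fun x : Y₀.Pt × Cone Q × Z => ((Y₀.val x.1, x.2) : Y × Cone Q × Z)) w ∈
          E1 (cpG G ℕ (Y₀.Pt × Cone Q × Z)) → w ∈ E1 (cpG G ℕ (Y × Cone Q × Z))) ∧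
      ∀ v ∈ GL1 (cpG G ℕ (Y₀.Pt × Cone Q × Z)), ∃ u ∈ GL1 (cpG G ℕ (Y × Cone Q × Z)),
        (pullU (fun x : Y₀.Pt × Cone Q × Z => ((Y₀.val x.1, x.2) : Y × Cone Q × Z)) u)⁻¹ * v ∈
          E1 (cpG G ℕ (Y₀.Pt × Cone Q × Z)) := by
  have hs := deform_split (Q := Q) (Z := Z) hV h1 Y₀ hY₀ hH hHe h2 h3
  exact ⟨hs.inj' fun w hw => deform hV h1 hQ hH hHe h0 hw, hs.surj'⟩

end Pool.Agent.Lib.MP_aa9b81_an.Cb
end

end


section
/-!
# Continuous Bernoulli, part Lm: the deformation theorem in elementary terms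
-/

open scoped ENNReal Topology
open Function Filter MeasureTheory

noncomputable section

set_option linter.unusedSectionVars false

namespace Pool.Agent.Lib.MP_aa9b81_an.Cb

open Cut Hs

section Abs

variable {G Y E Z : Type} [Group G] [TopologicalSpace G] [IsTopologicalGroup G]
  [LocallyCompactSpace G] [SecondCountableTopology G] [T2Space G] [MeasurableSpace G]
  [BorelSpace G]
  [TopologicalSpace Y] [MulAction G Y] [AddCommGroup E] [Module ℝ E]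
  [TopologicalSpace E] [T2Space E] [ContinuousAdd E] [ContinuousSMul ℝ E] [DistribMulAction G E]
  [SMulCommClass G ℝ E] [ContinuousConstSMul G E] [TopologicalSpace Z] [MulAction G Z]
  [T2Space Y] [LocallyCompactSpace Y] [ContinuousSMul G Y] [T2Space Z] [LocallyCompactSpace Z]
  [ContinuousSMul G Z]
  {V : Set G} {Δ : Df G Y V} {Q : ConvexSpace G E}

theorem deform_k1Zero (hV : IsOpen V) (h1 : (1 : G) ∈ V)
    (hQ : Continuous fun p : G × Q.Pt => p.1 • p.2)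
    (Y₀ : InvSet G Y) (hY₀ : IsClosed Y₀.carrier) {H : Prs Δ → Y} (hH : IsProperMap H)
    (hHe : ∀ (g : G) x, H (g • x) = g • H x) (h0 : ∀ y, H (Δ.full y) = y)
    (h2 : ∀ y, H (Δ.non y) ∈ Y₀.carrier) (h3 : ∀ y ∈ Y₀.carrier, H (Δ.non y) = y) :
    LC0.K1Zero G (Y₀.cpl.Pt × Cone Q × Z) := by
  have hc := cone_continuousSMul Q hQ
  exact k1ZeroG_iff.2 (deform_zero hV h1 hQ Y₀ hY₀ hH hHe h0 h2 h3)

theorem deform_k1Bij (hV : IsOpen V) (h1 : (1 : G) ∈ V)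
    (hQ : Continuous fun p : G × Q.Pt => p.1 • p.2)
    (Y₀ : InvSet G Y) (hY₀ : IsClosed Y₀.carrier) {H : Prs Δ → Y} (hH : IsProperMap H)
    (hHe : ∀ (g : G) x, H (g • x) = g • H x) (h0 : ∀ y, H (Δ.full y) = y)
    (h2 : ∀ y, H (Δ.non y) ∈ Y₀.carrier) (h3 : ∀ y ∈ Y₀.carrier, H (Δ.non y) = y) :
    LC0.K1Bij G (fun x : Y₀.Pt × Cone Q × Z => ((Y₀.val x.1, x.2) : Y × Cone Q × Z)) := by
  have hc := cone_continuousSMul Q hQ
  have hs := deform_split (Q := Q) (Z := Z) hV h1 Y₀ hY₀ hH hHe h2 h3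
  exact (k1BijG_iff hs.pi hs.ei).2 (deform_bij hV h1 hQ Y₀ hY₀ hH hHe h0 h2 h3)

end Abs

instance {G : Type} [Group G] [TopologicalSpace G] (j : ℕ) : ContinuousSMul G (Cube j) :=
  ⟨continuous_snd⟩

section Res

variable {G E Y : Type} [Group G] [TopologicalSpace G] [IsTopologicalGroup G]
  [LocallyCompactSpace G] [SecondCountableTopology G] [T2Space G] [MeasurableSpace G]
  [BorelSpace G] {V : Set G} [AddCommGroup E] [Module ℝ E]
  [TopologicalSpace E] [T2Space E] [ContinuousAdd E] [ContinuousSMul ℝ E]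
  [DistribMulAction G E] [SMulCommClass G ℝ E] [ContinuousConstSMul G E]
  [TopologicalSpace Y] [T2Space Y] [LocallyCompactSpace Y] [MulAction G Y] [ContinuousSMul G Y]

/-- The convex space. -/
def cvx (Q : LC.ConvexSpace G E) : ConvexSpace G E :=
  ⟨Q.carrier, Q.nonempty, Q.compact, Q.convex, Q.smul_mem⟩

/-- The family of separated sets. -/
def dfm {D : Y → LC.ClV V} (hD : Continuous D) (hDe : ∀ (g : G) y, D (g • y) = g • D y) :
    Df G Y V where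
  D y := ⟨(D y).1, (D y).2⟩
  cont := hD
  smul g y := congrArg (fun A : LC.ClV V => (⟨A.1, A.2⟩ : ClV V)) (hDe g y)

/-- The invariant subset. -/
def ivs (Y₀ : SubMulAction G Y) : InvSet G Y := ⟨(Y₀ : Set Y), fun g _ h => Y₀.smul_mem g h⟩

theorem cvx_cont {Q : LC.ConvexSpace G E}
    (hQ : ContinuousOn (fun p : G × E => p.1 • p.2) (Set.univ ×ˢ Q.carrier)) :
    Continuous fun p : G × (cvx Q).Pt => p.1 • p.2 := by
  have h1 : Continuous fun p : G × (cvx Q).Pt => (p.1 • (p.2.1 : E) : E) := by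
    have h2 : Continuous fun p : G × (cvx Q).Pt => ((p.1, p.2.1) : G × E) :=
      continuous_fst.prodMk (continuous_subtype_val.comp continuous_snd)
    exact hQ.comp_continuous h2 fun p => ⟨Set.mem_univ _, p.2.2⟩
  exact Continuous.subtype_mk h1 _

variable (hV : IsOpen V) (h1 : (1 : G) ∈ V) (Q : LC.ConvexSpace G E)
  (hQ : ContinuousOn (fun p : G × E => p.1 • p.2) (Set.univ ×ˢ Q.carrier))
  (Y₀ : SubMulAction G Y) (hY₀ : IsClosed (Y₀ : Set Y)) {D : Y → LC.ClV V} {H : LC.Pairs D → Y}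
  (hH : LC.Thinning Y₀ D H) (j : ℕ)

include hV h1 hQ hY₀ hH

theorem lc0_k1Zero : LC0.K1Zero G (LC.Wsp Q (Y₀ᶜ : SubMulAction G Y) j) := by
  let Δ : Df G Y V := dfm hH.continuous hH.smul_D
  let H' : Prs Δ → Y := H
  have h := deform_k1Zero (Δ := Δ) (Q := cvx Q) (Z := Cube j) hV h1 (cvx_cont hQ) (ivs Y₀) hY₀
    (H := H') hH.isProperMap (fun g x => hH.smul_H g x (g • x) rfl rfl) (fun y => hH.full _ rfl)
    (fun y => hH.empty_mem (Δ.non y) rfl) (fun y hy => hH.empty_eq (Δ.non y) rfl hy)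
  exact h

theorem lc0_k1Bij : LC0.K1Bij G (LC.Wsp.map Q (Subtype.val : Y₀ → Y) j) := by
  let Δ : Df G Y V := dfm hH.continuous hH.smul_D
  let H' : Prs Δ → Y := H
  have h := deform_k1Bij (Δ := Δ) (Q := cvx Q) (Z := Cube j) hV h1 (cvx_cont hQ) (ivs Y₀) hY₀
    (H := H') hH.isProperMap (fun g x => hH.smul_H g x (g • x) rfl rfl) (fun y => hH.full _ rfl)
    (fun y => hH.empty_mem (Δ.non y) rfl) (fun y hy => hH.empty_eq (Δ.non y) rfl hy)
  exact h

theorem lc_k1Zero : LC.K1Zero G (LC.Wsp Q (Y₀ᶜ : SubMulAction G Y) j) :=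
  lc_k1Zero_iff.2 (lc0_k1Zero hV h1 Q hQ Y₀ hY₀ hH j)

theorem lc_k1Bij : LC.K1Bij G (LC.Wsp.map Q (Subtype.val : Y₀ → Y) j) :=
  lc_k1Bij_iff.2 (lc0_k1Bij hV h1 Q hQ Y₀ hY₀ hH j)

end Res

end Pool.Agent.Lib.MP_aa9b81_an.Cb
end

end
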